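import Pool.Agent.Lib.FcWild.Defs

/-!
Basic facts on left comodules: the right action of the dual space, homomorphisms, subcomodules,
coefficient maps and finite powers of the regular comodule.
-/

universe u

open scoped TensorProduct

namespace Pool.Agent.Lib.FcWild

section Slice

variable {K C M N : Type u} [Field K] [AddCommGroup C] [Module K C] [AddCommGroup M] [Module K M]
  [AddCommGroup N] [Module K N]

/-- Contraction of the left tensor factor with a functional. -/
noncomputable def slice (M : Type u) [AddCommGroup M] [Module K M] (f : C →ₗ[K] K) :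
    C ⊗[K] M →ₗ[K] M :=
  (TensorProduct.lid K M).toLinearMap ∘ₗ f.rTensor M

@[simp]
theorem slice_tmul (f : C →ₗ[K] K) (c : C) (m : M) : slice M f (c ⊗ₜ[K] m) = f c • m := by
  simp [slice]

theorem slice_lTensor (f : C →ₗ[K] K) (g : M →ₗ[K] N) (t : C ⊗[K] M) :
    slice N f (g.lTensor C t) = g (slice M f t) := by
  induction t using TensorProduct.induction_on with
  | zero => simp
  | tmul c m => simp
  | add a b ha hb => simp only [map_add, ha, hb]

theorem slice_eq_coord {ι : Type*} [DecidableEq ι] (b : Module.Basis ι K C) (t : C ⊗[K] M)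
    (i : ι) : TensorProduct.equivFinsuppOfBasisLeft b t i = slice M (b.coord i) t := by
  rw [TensorProduct.equivFinsuppOfBasisLeft_apply]
  rfl

theorem slice_sep {t : C ⊗[K] M} (h : ∀ f : C →ₗ[K] K, slice M f t = 0) : t = 0 := by
  classical
  have b := Module.Basis.ofVectorSpace K C
  apply (TensorProduct.equivFinsuppOfBasisLeft b).injective
  rw [map_zero]
  ext i
  rw [slice_eq_coord, h]
  rfl

theorem slice_ext {s t : C ⊗[K] M} (h : ∀ f : C →ₗ[K] K, slice M f s = slice M f t) : s = t := by
  rw [← sub_eq_zero]
  apply slice_sep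
  intro f
  rw [map_sub, h f, sub_self]

theorem slice_mem {t : C ⊗[K] M} {A : Submodule K M} (h : ∀ f : C →ₗ[K] K, slice M f t ∈ A) :
    t ∈ LinearMap.range (A.subtype.lTensor C) := by
  classical
  have b := Module.Basis.ofVectorSpace K C
  have h1 : t = (TensorProduct.equivFinsuppOfBasisLeft b).symm
      (TensorProduct.equivFinsuppOfBasisLeft b t) := by simp
  rw [h1, TensorProduct.equivFinsuppOfBasisLeft_symm_apply]
  apply Submodule.sum_mem
  intro i _
  refine ⟨b i ⊗ₜ[K] ⟨TensorProduct.equivFinsuppOfBasisLeft b t i, ?_⟩, ?_⟩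
  · rw [slice_eq_coord]
    exact h _
  · simp

theorem slice_add (f g : C →ₗ[K] K) (t : C ⊗[K] M) :
    slice M (f + g) t = slice M f t + slice M g t := by
  simp [slice, LinearMap.rTensor_add]

theorem slice_smul (a : K) (f : C →ₗ[K] K) (t : C ⊗[K] M) :
    slice M (a • f) t = a • slice M f t := by
  simp [slice, LinearMap.rTensor_smul]

theorem dual_sep {c : C} (h : ∀ k : C →ₗ[K] K, k c = 0) : c = 0 :=
  (Module.forall_dual_apply_eq_zero_iff K c).1 h

theorem dual_ext {c d : C} (h : ∀ k : C →ₗ[K] K, k c = k d) : c = d := by
  rw [← sub_eq_zero]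
  apply dual_sep (K := K)
  intro k
  rw [map_sub, h k, sub_self]

end Slice

namespace LComod

variable {K C : Type u} [Field K] [AddCommGroup C] [Module K C] [Coalgebra K C]

/-- The right action of a functional on a left comodule. -/
noncomputable def act (X : LComod K C) (f : C →ₗ[K] K) : X.carrier →ₗ[K] X.carrier :=
  slice X.carrier f ∘ₗ X.coact

theorem act_apply (X : LComod K C) (f : C →ₗ[K] K) (x : X.carrier) :
    X.act f x = slice X.carrier f (X.coact x) := rfl

/-- The right action of a functional on the coalgebra. -/
noncomputable def ract (f : C →ₗ[K] K) : C →ₗ[K] C := slice C f ∘ₗ Coalgebra.comul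

theorem ract_apply (f : C →ₗ[K] K) (c : C) : ract f c = slice C f (Coalgebra.comul c) := rfl

theorem regular_act (f : C →ₗ[K] K) (c : C) : (regular K C).act f c = ract f c := rfl

theorem slice_assoc {M : Type u} [AddCommGroup M] [Module K M] (f g : C →ₗ[K] K)
    (t : C ⊗[K] M) :
    slice M g (slice (C ⊗[K] M) f (TensorProduct.assoc K C C M
      ((Coalgebra.comul (R := K) (A := C)).rTensor M t))) = slice M (g ∘ₗ ract f) t := by
  induction t using TensorProduct.induction_on with
  | zero => simp
  | tmul c m =>
    rw [LinearMap.rTensor_tmul, slice_tmul, LinearMap.comp_apply, ract_apply]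
    generalize (Coalgebra.comul (R := K) c) = s
    induction s using TensorProduct.induction_on with
    | zero => simp
    | tmul a b => simp [mul_smul]
    | add a b ha hb => simp only [TensorProduct.add_tmul, map_add, ha, hb, add_smul]
  | add a b ha hb => simp only [map_add, ha, hb]

theorem act_act (X : LComod K C) (f g : C →ₗ[K] K) (x : X.carrier) :
    X.act g (X.act f x) = X.act (g ∘ₗ ract f) x := by
  have h := LinearMap.congr_fun X.coassoc x
  simp only [LinearMap.comp_apply, LinearEquiv.coe_coe] at h
  rw [act_apply, act_apply, act_apply, ← slice_lTensor, ← h, slice_assoc]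

theorem act_counit (X : LComod K C) (x : X.carrier) :
    X.act (Coalgebra.counit (R := K) (A := C)) x = x := by
  have h := LinearMap.congr_fun X.counit_coact x
  simp only [LinearMap.comp_apply] at h
  rw [act_apply, slice, LinearMap.comp_apply, h]
  simp

theorem act_add_left (X : LComod K C) (f g : C →ₗ[K] K) (x : X.carrier) :
    X.act (f + g) x = X.act f x + X.act g x := slice_add f g _

theorem act_smul_left (X : LComod K C) (a : K) (f : C →ₗ[K] K) (x : X.carrier) :
    X.act (a • f) x = a • X.act f x := slice_smul a f _

/-- The action as a linear map in the functional. -/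
noncomputable def actL (X : LComod K C) (x : X.carrier) : (C →ₗ[K] K) →ₗ[K] X.carrier where
  toFun f := X.act f x
  map_add' f g := X.act_add_left f g x
  map_smul' a f := X.act_smul_left a f x

@[simp]
theorem actL_apply (X : LComod K C) (x : X.carrier) (f : C →ₗ[K] K) : X.actL x f = X.act f x :=
  rfl

theorem act_sum_left {ι : Type*} (X : LComod K C) (s : Finset ι) (f : ι → C →ₗ[K] K)
    (x : X.carrier) : X.act (∑ i ∈ s, f i) x = ∑ i ∈ s, X.act (f i) x :=
  map_sum (X.actL x) f s

theorem hom_act {X Y : LComod K C} (φ : X.hom Y) (f : C →ₗ[K] K) (x : X.carrier) :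
    φ.1 (X.act f x) = Y.act f (φ.1 x) := by
  rw [act_apply, act_apply, φ.2 x, slice_lTensor]

theorem mem_hom_iff {X Y : LComod K C} (φ : X.carrier →ₗ[K] Y.carrier) :
    φ ∈ X.hom Y ↔ ∀ (f : C →ₗ[K] K) (x : X.carrier), φ (X.act f x) = Y.act f (φ x) := by
  constructor
  · intro h f x
    exact hom_act ⟨φ, h⟩ f x
  · intro h x
    apply slice_ext
    intro f
    rw [slice_lTensor]
    exact (h f x).symm

/-- A homomorphism from a linear map commuting with the action. -/
noncomputable def mkHom {X Y : LComod K C} (φ : X.carrier →ₗ[K] Y.carrier)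
    (h : ∀ (f : C →ₗ[K] K) (x : X.carrier), φ (X.act f x) = Y.act f (φ x)) : X.hom Y :=
  ⟨φ, (mem_hom_iff φ).2 h⟩

@[simp]
theorem mkHom_coe {X Y : LComod K C} (φ : X.carrier →ₗ[K] Y.carrier)
    (h : ∀ (f : C →ₗ[K] K) (x : X.carrier), φ (X.act f x) = Y.act f (φ x)) :
    (mkHom φ h).1 = φ := rfl

theorem isSub_iff {X : LComod K C} (A : Submodule K X.carrier) :
    X.IsSub A ↔ ∀ (f : C →ₗ[K] K), ∀ x ∈ A, X.act f x ∈ A := by
  constructor
  · intro h f x hx
    obtain ⟨t, ht⟩ := h x hx
    rw [act_apply, ← ht, slice_lTensor]
    exact (slice A f t).2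
  · intro h x hx
    exact slice_mem fun f => h f x hx

/-- Construct a comodule from a linear map whose slices satisfy the axioms of an action. -/
noncomputable def ofAct {M : Type u} [AddCommGroup M] [Module K M] (ρ : M →ₗ[K] C ⊗[K] M)
    (h1 : ∀ (f g : C →ₗ[K] K) (x : M), slice M g (ρ (slice M f (ρ x))) =
      slice M (g ∘ₗ ract f) (ρ x))
    (h2 : ∀ x, slice M (Coalgebra.counit (R := K) (A := C)) (ρ x) = x) : LComod K C where
  carrier := M
  coact := ρ
  coassoc := by
    ext x
    apply slice_ext
    intro f
    apply slice_ext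
    intro g
    simp only [LinearMap.comp_apply, LinearEquiv.coe_coe]
    rw [slice_assoc, slice_lTensor, h1]
  counit_coact := by
    ext x
    apply (TensorProduct.lid K M).injective
    simpa [slice] using h2 x

/-- The coefficient map of a functional on a comodule. -/
noncomputable def coef (X : LComod K C) (l : X.carrier →ₗ[K] K) : X.carrier →ₗ[K] C :=
  (TensorProduct.rid K C).toLinearMap ∘ₗ l.lTensor C ∘ₗ X.coact

theorem apply_coef (X : LComod K C) (l : X.carrier →ₗ[K] K) (k : C →ₗ[K] K) (x : X.carrier) :
    k (X.coef l x) = l (X.act k x) := by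
  rw [coef, act_apply, LinearMap.comp_apply, LinearMap.comp_apply]
  generalize X.coact x = t
  induction t using TensorProduct.induction_on with
  | zero => simp
  | tmul c m => simp [mul_comm]
  | add a b ha hb => simp only [map_add, ha, hb]

theorem counit_coef (X : LComod K C) (l : X.carrier →ₗ[K] K) (x : X.carrier) :
    Coalgebra.counit (R := K) (X.coef l x) = l x := by
  rw [apply_coef, act_counit]

theorem coef_act (X : LComod K C) (l : X.carrier →ₗ[K] K) (f : C →ₗ[K] K) (x : X.carrier) :
    X.coef l (X.act f x) = ract f (X.coef l x) := by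
  apply dual_ext (K := K)
  intro k
  rw [apply_coef, act_act]
  exact ((X.apply_coef l (k ∘ₗ ract f) x)).symm

theorem ract_ract (f g : C →ₗ[K] K) (c : C) : ract g (ract f c) = ract (g ∘ₗ ract f) c :=
  (regular K C).act_act f g c

theorem ract_counit (c : C) : ract (Coalgebra.counit (R := K) (A := C)) c = c :=
  (regular K C).act_counit c

/-- The counit composed with the action of `f` is `f`. -/
theorem counit_ract (f : C →ₗ[K] K) (c : C) : Coalgebra.counit (R := K) (ract f c) = f c := by
  rw [ract_apply]
  have h := Coalgebra.lTensor_counit_comul (R := K) c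
  rw [← slice_lTensor, h]
  simp

/-- The comodule `Cⁿ`. -/
noncomputable def powC (K C : Type u) [Field K] [AddCommGroup C] [Module K C] [Coalgebra K C]
    (n : ℕ) : LComod K C :=
  ofAct (M := Fin n → C)
    (∑ i, (LinearMap.single K (fun _ : Fin n => C) i).lTensor C ∘ₗ Coalgebra.comul ∘ₗ
      LinearMap.proj i)
    (by
      have key : ∀ (f : C →ₗ[K] K) (v : Fin n → C), slice (Fin n → C) f
          ((∑ i, (LinearMap.single K (fun _ : Fin n => C) i).lTensor C ∘ₗ Coalgebra.comul ∘ₗ
            LinearMap.proj i) v) = fun i => ract f (v i) := by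
        intro f v
        simp only [LinearMap.sum_apply, LinearMap.comp_apply, LinearMap.proj_apply, map_sum,
          slice_lTensor]
        ext j
        rw [Finset.sum_apply, Finset.sum_eq_single j]
        · simp [ract_apply]
        · intro i _ hi
          simp [hi.symm]
        · intro h
          exact absurd (Finset.mem_univ j) h
      intro f g v
      rw [key, key, key]
      ext j
      exact ract_ract f g (v j))
    (by
      intro v
      simp only [LinearMap.sum_apply, LinearMap.comp_apply, LinearMap.proj_apply, map_sum,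
          slice_lTensor]
      ext j
      rw [Finset.sum_apply, Finset.sum_eq_single j]
      · have := ract_counit (K := K) (v j)
        rw [ract_apply] at this
        simp [this]
      · intro i _ hi
        simp [hi.symm]
      · intro h
        exact absurd (Finset.mem_univ j) h)

theorem powC_act (n : ℕ) (f : C →ₗ[K] K) (v : Fin n → C) :
    (powC K C n).act f v = fun i => ract f (v i) := by
  have : (powC K C n).act f v = slice (Fin n → C) f
          ((∑ i, (LinearMap.single K (fun _ : Fin n => C) i).lTensor C ∘ₗ Coalgebra.comul ∘ₗ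
            LinearMap.proj i) v) := rfl
  rw [this]
  simp only [LinearMap.sum_apply, LinearMap.comp_apply, LinearMap.proj_apply, map_sum,
    slice_lTensor]
  refine funext fun j => ?_
  rw [Finset.sum_apply, Finset.sum_eq_single j]
  · simp [ract_apply]
  · intro i _ hi
    simp [hi.symm]
  · intro h
    exact absurd (Finset.mem_univ j) h

/-- The homomorphism to `Cⁿ` given by `n` functionals. -/
noncomputable def toPow (X : LComod K C) {n : ℕ} (l : Fin n → X.carrier →ₗ[K] K) :
    X.hom (powC K C n) :=
  mkHom (Y := powC K C n) (LinearMap.pi fun i => X.coef (l i)) (by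
    intro f x
    rw [powC_act]
    refine funext fun i => ?_
    exact X.coef_act (l i) f x)

theorem toPow_apply (X : LComod K C) {n : ℕ} (l : Fin n → X.carrier →ₗ[K] K) (x : X.carrier)
    (i : Fin n) : (X.toPow l).1 x i = X.coef (l i) x := rfl

end LComod

end Pool.Agent.Lib.FcWild
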