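import Pool.Agent.Lib.FcWild.WldRich

/-!
The concrete coalgebra is strongly quasifinite.
-/

universe u

open scoped TensorProduct

namespace Pool.Agent.Lib.FcWild

open LComod Vtx

section General

variable {K C : Type u} [Field K] [AddCommGroup C] [Module K C] [Coalgebra K C]

theorem isStronglyQuasifinite_of_local
    (hloc : ∀ D : Finset C, ∃ e : C →ₗ[K] K, (∀ c ∈ D, e c = Coalgebra.counit (R := K) c) ∧
      Module.Finite K (LinearMap.range (ract e))) : IsStronglyQuasifinite K C := by
  classical
  intro Y q hq S hS
  have hfin := finite_of_isSimple hS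
  -- an idempotent fixing all of `S`
  obtain ⟨G, hG⟩ := hfin.fg_top
  have hT := fun x : S.carrier => TensorProduct.exists_finset (R := K) (S.coact x)
  choose T hT using hT
  obtain ⟨e, he, hefin⟩ := hloc (G.biUnion fun x => (T x).image Prod.fst)
  have hfix : ∀ s : S.carrier, S.act e s = s := by
    have hle : (⊤ : Submodule K S.carrier) ≤ LinearMap.eqLocus (S.act e) LinearMap.id := by
      rw [← hG, Submodule.span_le]
      intro x hx
      show S.act e x = x
      have h : S.act e x = S.act (Coalgebra.counit (R := K) (A := C)) x := by
        rw [act_apply, act_apply, hT x, map_sum, map_sum]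
        apply Finset.sum_congr rfl
        intro p hp
        rw [slice_tmul, slice_tmul, he]
        apply Finset.mem_biUnion.2
        exact ⟨x, hx, Finset.mem_image.2 ⟨p, hp, rfl⟩⟩
      rw [h, act_counit]
    intro s
    exact hle (Submodule.mem_top (x := s))
  -- the finite-dimensional target
  let Q : C →ₗ[K] Y.carrier := q.1
  let Z : Submodule K Y.carrier := (LinearMap.range (ract e)).map Q
  have hZ : Module.Finite K Z := Module.Finite.map (LinearMap.range (ract e)) Q
  have hval : ∀ (φ : S.hom Y) (s : S.carrier), φ.1 s ∈ Z := by
    intro φ s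
    obtain ⟨c, hc⟩ := hq (φ.1 s)
    have h1 : φ.1 s = q.1 ((regular K C).act e c) := by
      rw [hom_act, hc, ← hom_act, hfix]
    rw [h1]
    exact Submodule.mem_map_of_mem (LinearMap.mem_range_self (ract e) c)
  let Ψ : S.hom Y →ₗ[K] (S.carrier →ₗ[K] Z) :=
    { toFun := fun φ => LinearMap.codRestrict Z φ.1 (hval φ)
      map_add' := by
        intro a b
        rfl
      map_smul' := by
        intro a b
        rfl }
  have hΨ : Function.Injective Ψ := by
    intro a b hab
    apply Subtype.ext
    ext s
    have := LinearMap.congr_fun hab s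
    exact congrArg Subtype.val this
  exact Module.Finite.of_injective Ψ hΨ

theorem isFQuasifinite_of_strongly (h : IsStronglyQuasifinite K C) : IsFQuasifinite K C :=
  fun Y q hq _ => h Y q hq

end General

section Concrete

variable {K : Type u} [Field K]

open Classical in
/-- The functional cutting out a finite set of basis elements. -/
noncomputable def finE (T : Finset (Vtx K × ℕ)) : Wld K →ₗ[K] K :=
  lc fun v l => if (v, l) ∈ T then wcounit (bas v l) else 0

theorem finE_mem {T : Finset (Vtx K × ℕ)} {v : Vtx K} {l : ℕ} (h : (v, l) ∈ T) :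
    finE T (bas v l) = wcounit (bas v l) := by
  classical
  rw [finE, lc_bas, if_pos h]

theorem finE_not_mem {T : Finset (Vtx K × ℕ)} {v : Vtx K} {l : ℕ} (h : (v, l) ∉ T) :
    finE T (bas v l) = 0 := by
  classical
  rw [finE, lc_bas, if_neg h]

theorem finE_good (T : Finset (Vtx K × ℕ)) {v : Vtx K} (hv : Good v) {l : ℕ}
    (hl : l < v.dim) : finE T (bas v (l + 1)) = 0 := by
  by_cases h : (v, l + 1) ∈ T
  · rw [finE_mem h, wcounit_good hv hl]
  · exact finE_not_mem h

theorem finE_eq_of_support (T : Finset (Vtx K × ℕ)) (x : Wld K)
    (hT : ((x : (Vtx K × ℕ) →₀ K)).support ⊆ T) : finE T x = wcounit x := by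
  classical
  rw [← sum_coo T x hT, map_sum, map_sum]
  apply Finset.sum_congr rfl
  intro p hp
  rw [map_smul, map_smul, finE_mem hp]

open Classical in
/-- The finite set of basis elements spanning the image. -/
noncomputable def closureSet (T : Finset (Vtx K × ℕ)) : Finset (Vtx K × ℕ) :=
  T ∪ T.biUnion fun p => (Finset.range (p.1.dim + 1)).image fun l => (p.1, l)

open Classical in
theorem ract_finE_mem (T : Finset (Vtx K × ℕ)) (x : Wld K) :
    ract (finE T) x ∈ Submodule.span K
      (((closureSet T).image fun p => bas p.1 p.2 : Finset (Wld K)) : Set (Wld K)) := by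
  classical
  have hmem : ∀ v l, (v, l) ∈ closureSet T → bas v l ∈ Submodule.span K
      (((closureSet T).image fun p => bas p.1 p.2 : Finset (Wld K)) : Set (Wld K)) := by
    intro v l h
    apply Submodule.subset_span
    rw [Finset.mem_coe]
    exact Finset.mem_image.2 ⟨(v, l), h, rfl⟩
  have h : x ∈ (Submodule.span K
      (((closureSet T).image fun p => bas p.1 p.2 : Finset (Wld K)) :
        Set (Wld K))).comap (ract (finE T)) := by
    apply top_le (K := K)
    intro v l
    rw [Submodule.mem_comap]
    cases l with
    | zero =>
      rw [ract_zero']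
      by_cases h : (v, 0) ∈ T
      · exact Submodule.smul_mem _ _ (hmem v 0 (Finset.mem_union_left _ h))
      · rw [finE_not_mem h, zero_smul]
        exact Submodule.zero_mem _
    | succ l =>
      by_cases hg : Good v ∧ l < v.dim
      · rw [ract_good _ hg.1 hg.2, Finset.sum_eq_zero, add_zero]
        · by_cases h : (v, 0) ∈ T
          · apply Submodule.smul_mem
            apply hmem
            apply Finset.mem_union_right
            apply Finset.mem_biUnion.2
            refine ⟨(v, 0), h, Finset.mem_image.2 ⟨l + 1, ?_, rfl⟩⟩
            rw [Finset.mem_range]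
            exact Nat.succ_lt_succ hg.2
          · rw [finE_not_mem h, zero_smul]
            exact Submodule.zero_mem _
        · intro i _
          rw [finE_good T hg.1 i.2, zero_smul]
      · rw [ract_bad _ hg]
        by_cases h : (v, l + 1) ∈ T
        · exact Submodule.smul_mem _ _ (hmem v _ (Finset.mem_union_left _ h))
        · rw [finE_not_mem h, zero_smul]
          exact Submodule.zero_mem _
  exact h

theorem wld_isStronglyQuasifinite : IsStronglyQuasifinite K (Wld K) := by
  classical
  apply isStronglyQuasifinite_of_local
  intro D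
  let T : Finset (Vtx K × ℕ) := D.biUnion fun c => ((c : (Vtx K × ℕ) →₀ K)).support
  refine ⟨finE T, ?_, ?_⟩
  · intro c hc
    rw [counit_eq]
    apply finE_eq_of_support
    exact Finset.subset_biUnion_of_mem (fun c : Wld K => ((c : (Vtx K × ℕ) →₀ K)).support) hc
  · have hle : LinearMap.range (ract (finE T)) ≤ Submodule.span K
      (((closureSet T).image fun p => bas p.1 p.2 : Finset (Wld K)) : Set (Wld K)) := by
      rintro _ ⟨x, rfl⟩
      exact ract_finE_mem T x
    have hfin : FiniteDimensional K (Submodule.span K
      (((closureSet T).image fun p => bas p.1 p.2 : Finset (Wld K)) : Set (Wld K))) :=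
      FiniteDimensional.span_finset K _
    exact Submodule.finiteDimensional_of_le hle

end Concrete

end Pool.Agent.Lib.FcWild
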