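import Pool.Agent.Lib.FcWild.Kron
import Pool.Agent.Lib.FcWild.Quasi

/-!
A rich coalgebra with a grouplike element of level zero is wild: the modules over the Kronecker
algebra with three arrows embed into its finite-dimensional comodules.
-/

universe u

open scoped TensorProduct

namespace Pool.Agent.Lib.FcWild

open LComod

section Act

variable {K : Type u} [Field K]

/-- The first vertex idempotent. -/
noncomputable def kE0 (K : Type u) [Field K] : kron K := kel K 1 0 0 0 0

/-- The second vertex idempotent. -/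
noncomputable def kE1 (K : Type u) [Field K] : kron K := kel K 0 1 0 0 0

/-- The three arrows. -/
noncomputable def kA (K : Type u) [Field K] (i : Fin 3) : kron K :=
  kel K 0 0 (if i = 0 then 1 else 0) (if i = 1 then 1 else 0) (if i = 2 then 1 else 0)

theorem kel_zero : kel K 0 0 0 0 0 = 0 := by
  rw [kel_expand]
  simp

variable (M : FdMod K (kron K)) (m : M.carrier)

theorem act00 : M.act (kE0 K) (M.act (kE0 K) m) = M.act (kE0 K) m := by
  rw [← M.act_mul]
  simp [kE0, kel_mul]

theorem act01 : M.act (kE1 K) (M.act (kE0 K) m) = 0 := by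
  rw [← M.act_mul]
  simp [kE0, kE1, kel_mul, kel_zero]

theorem act10 : M.act (kE0 K) (M.act (kE1 K) m) = 0 := by
  rw [← M.act_mul]
  simp [kE0, kE1, kel_mul, kel_zero]

theorem act11 : M.act (kE1 K) (M.act (kE1 K) m) = M.act (kE1 K) m := by
  rw [← M.act_mul]
  simp [kE1, kel_mul]

theorem act0A (i : Fin 3) : M.act (kA K i) (M.act (kE0 K) m) = M.act (kA K i) m := by
  rw [← M.act_mul]
  simp [kE0, kA, kel_mul]

theorem act1A (i : Fin 3) : M.act (kA K i) (M.act (kE1 K) m) = 0 := by
  rw [← M.act_mul]
  simp [kE1, kA, kel_mul, kel_zero]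

theorem actA0 (i : Fin 3) : M.act (kE0 K) (M.act (kA K i) m) = 0 := by
  rw [← M.act_mul]
  simp [kE0, kA, kel_mul, kel_zero]

theorem actA1 (i : Fin 3) : M.act (kE1 K) (M.act (kA K i) m) = M.act (kA K i) m := by
  rw [← M.act_mul]
  simp [kE1, kA, kel_mul]

theorem actAA (i j : Fin 3) : M.act (kA K j) (M.act (kA K i) m) = 0 := by
  rw [← M.act_mul]
  simp [kA, kel_mul, kel_zero]

theorem act_sum01 : M.act (kE1 K) m + M.act (kE0 K) m = m := by
  have h : kE1 K + kE0 K = 1 := by
    rw [← kel_one, kel_expand K 1 1 0 0 0, kE0, kE1]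
    simp [add_comm]
  rw [← LinearMap.add_apply, ← map_add, h, M.act_one]

theorem act_kel (a b p q r : K) : M.act (kel K a b p q r) m = a • M.act (kE0 K) m +
    b • M.act (kE1 K) m + p • M.act (kA K 0) m + q • M.act (kA K 1) m +
      r • M.act (kA K 2) m := by
  rw [kel_expand]
  simp [kE0, kE1, kA]

end Act

/-- The elements and functionals spanning a copy of the coalgebra dual to the Kronecker
algebra. -/
structure KronData (K C : Type u) [Field K] [AddCommGroup C] [Module K C] [Coalgebra K C] where
  o : C
  g : C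
  ν : Fin 3 → C
  fo : C →ₗ[K] K
  fg : C →ₗ[K] K
  fν : Fin 3 → C →ₗ[K] K
  comul_o : Coalgebra.comul (R := K) o = o ⊗ₜ[K] o
  comul_g : Coalgebra.comul (R := K) g = g ⊗ₜ[K] g
  comul_ν : ∀ i, Coalgebra.comul (R := K) (ν i) = g ⊗ₜ[K] ν i + ν i ⊗ₜ[K] o
  counit_o : Coalgebra.counit (R := K) o = 1
  counit_g : Coalgebra.counit (R := K) g = 1
  counit_ν : ∀ i, Coalgebra.counit (R := K) (ν i) = 0
  foo : fo o = 1
  fog : fo g = 0
  foν : ∀ i, fo (ν i) = 0
  fgo : fg o = 0
  fgg : fg g = 1
  fgν : ∀ i, fg (ν i) = 0
  fνo : ∀ i, fν i o = 0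
  fνg : ∀ i, fν i g = 0
  fνν : ∀ i j, fν i (ν j) = if i = j then 1 else 0

namespace KronData

variable {K C : Type u} [Field K] [AddCommGroup C] [Module K C] [Coalgebra K C]
variable (D : KronData K C)

/-- The coaction on a module over the Kronecker algebra. -/
noncomputable def rho (M : FdMod K (kron K)) : M.carrier →ₗ[K] C ⊗[K] M.carrier :=
  TensorProduct.mk K C M.carrier D.o ∘ₗ M.act (kE1 K) +
    TensorProduct.mk K C M.carrier D.g ∘ₗ M.act (kE0 K) +
    ∑ i, TensorProduct.mk K C M.carrier (D.ν i) ∘ₗ M.act (kA K i)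

theorem slice_rho (M : FdMod K (kron K)) (f : C →ₗ[K] K) (m : M.carrier) :
    slice M.carrier f (D.rho M m) = f D.o • M.act (kE1 K) m + f D.g • M.act (kE0 K) m +
      (f (D.ν 0) • M.act (kA K 0) m + f (D.ν 1) • M.act (kA K 1) m +
        f (D.ν 2) • M.act (kA K 2) m) := by
  simp only [rho, LinearMap.add_apply, LinearMap.comp_apply,
    TensorProduct.mk_apply, map_add, slice_tmul, Fin.sum_univ_three]

theorem ract_o (f : C →ₗ[K] K) : ract f D.o = f D.o • D.o := by
  rw [ract_apply, D.comul_o, slice_tmul]

theorem ract_g (f : C →ₗ[K] K) : ract f D.g = f D.g • D.g := by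
  rw [ract_apply, D.comul_g, slice_tmul]

theorem ract_ν (f : C →ₗ[K] K) (i : Fin 3) :
    ract f (D.ν i) = f D.g • D.ν i + f (D.ν i) • D.o := by
  rw [ract_apply, D.comul_ν, map_add, slice_tmul, slice_tmul]

/-- The comodule attached to a module over the Kronecker algebra. -/
noncomputable def obj (M : FdMod K (kron K)) : LComod K C :=
  ofAct (D.rho M)
    (by
      intro f f' m
      rw [slice_rho, slice_rho, slice_rho]
      simp only [LinearMap.comp_apply, ract_o, ract_g, ract_ν, map_add, map_smul, act00, act01,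
        act10, act11, act0A, act1A, actA0, actA1, actAA, smul_zero, add_zero, zero_add,
        smul_eq_mul]
      module)
    (by
      intro m
      rw [slice_rho, D.counit_o, D.counit_g, D.counit_ν, D.counit_ν, D.counit_ν]
      simp only [one_smul, zero_smul, add_zero]
      exact act_sum01 M m)

theorem exists_functional (w : kron K) : ∃ f : C →ₗ[K] K, ∀ (M : FdMod K (kron K))
    (m : M.carrier), (D.obj M).act f m = M.act w m := by
  obtain ⟨a, b, p, q, r, rfl⟩ := kel_surj K w
  refine ⟨a • D.fg + b • D.fo + p • D.fν 0 + q • D.fν 1 + r • D.fν 2, fun M m => ?_⟩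
  show slice M.carrier _ (D.rho M m) = _
  rw [slice_rho, act_kel]
  simp [D.foo, D.fog, D.foν, D.fgo, D.fgg, D.fgν, D.fνo, D.fνg, D.fνν]
  module

theorem exists_element (f : C →ₗ[K] K) : ∃ w : kron K, ∀ (M : FdMod K (kron K))
    (m : M.carrier), (D.obj M).act f m = M.act w m := by
  refine ⟨f D.o • kE1 K + f D.g • kE0 K + (f (D.ν 0) • kA K 0 + f (D.ν 1) • kA K 1 +
    f (D.ν 2) • kA K 2), fun M m => ?_⟩
  show slice M.carrier _ (D.rho M m) = _
  rw [slice_rho]
  simp only [map_add, map_smul, LinearMap.add_apply, LinearMap.smul_apply]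

theorem hom_iff (M N : FdMod K (kron K)) (φ : M.carrier →ₗ[K] N.carrier) :
    φ ∈ (D.obj M).hom (D.obj N) ↔ φ ∈ M.hom N := by
  constructor
  · intro h w m
    obtain ⟨f, hf⟩ := D.exists_functional w
    have h1 := (mem_hom_iff (X := D.obj M) (Y := D.obj N) φ).1 h f m
    rw [hf M m] at h1
    exact h1.trans (hf N (φ m))
  · intro h
    apply (mem_hom_iff (X := D.obj M) (Y := D.obj N) φ).2
    intro f m
    obtain ⟨w, hw⟩ := D.exists_element f
    rw [hw M m]
    exact (h w m).trans (hw N (φ m)).symm

/-- The representation embedding. -/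
noncomputable def embedding : RepEmbedding K (kron K) C where
  obj := D.obj
  map {X Y} :=
    { toFun := fun f => ⟨f.1, (D.hom_iff X Y f.1).2 f.2⟩
      map_add' := fun _ _ => rfl
      map_smul' := fun _ _ => rfl }
  map_id := fun _ => rfl
  map_comp := fun _ _ => rfl
  exact := fun _ _ h => h
  indec := by
    intro X hX
    refine ⟨hX.1, fun A B hA hB hAB => ?_⟩
    apply hX.2 A B _ _ hAB
    · intro w x hx
      obtain ⟨f, hf⟩ := D.exists_functional w
      rw [← hf X x]
      exact (isSub_iff (X := D.obj X) A).1 hA f x hx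
    · intro w x hx
      obtain ⟨f, hf⟩ := D.exists_functional w
      rw [← hf X x]
      exact (isSub_iff (X := D.obj X) B).1 hB f x hx
  reflect := by
    rintro X Y ⟨f, hf⟩
    exact ⟨f, (D.hom_iff X Y _).1 hf⟩

include D in
theorem isWild : IsWild K C :=
  ⟨kron K, inferInstance, inferInstance, kron_isDrozdWild, D.embedding, fun X => X.fin⟩

end KronData

namespace Rich

variable {K C : Type u} [Field K] [AddCommGroup C] [Module K C] [Coalgebra K C]

theorem exists_kronData (R : Rich K C) (o : C) (ho : o ∈ R.B 0)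
    (hcom : Coalgebra.comul (R := K) o = o ⊗ₜ[K] o) (hcou : Coalgebra.counit (R := K) o = 1) :
    Nonempty (KronData K C) := by
  obtain ⟨g, ν, κ, h1, h2, h3, h4, h5, h6, h7⟩ := R.vertex 0 3
    (fun i k => if i = k then o else 0)
    (by
      intro i k
      by_cases h : i = k
      · rw [if_pos h]
        exact ho
      · rw [if_neg h]
        exact Submodule.zero_mem _)
    (by
      intro i k
      by_cases h : i = k
      · subst h
        rw [if_pos rfl, Finset.sum_eq_single i]
        · rw [if_pos rfl, hcom]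
        · intro l _ hl
          rw [if_neg hl, TensorProduct.tmul_zero]
        · intro h
          exact absurd (Finset.mem_univ i) h
      · rw [if_neg h, map_zero]
        symm
        apply Finset.sum_eq_zero
        intro l _
        by_cases hl : i = l
        · subst hl
          rw [if_neg h, TensorProduct.tmul_zero]
        · rw [if_neg hl, TensorProduct.zero_tmul])
    (by
      intro i k
      by_cases h : i = k
      · rw [if_pos h, if_pos h, hcou]
      · rw [if_neg h, if_neg h, map_zero])
  have heo : R.e 0 o = 1 := by rw [R.e_eq 0 o ho, hcou]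
  have hν : ∀ i, Coalgebra.comul (R := K) (ν i) = g ⊗ₜ[K] ν i + ν i ⊗ₜ[K] o := by
    intro i
    rw [h1, Finset.sum_eq_single i]
    · rw [if_pos rfl]
    · intro l _ hl
      rw [if_neg hl, TensorProduct.tmul_zero]
    · intro h
      exact absurd (Finset.mem_univ i) h
  have hcν : ∀ i, Coalgebra.counit (R := K) (ν i) = 0 := by
    intro i
    have h := counit_ract (K := K) (Coalgebra.counit (R := K) (A := C)) (ν i)
    rw [ract_apply, hν, map_add, slice_tmul, slice_tmul, map_add, map_smul, map_smul, h7,
      hcou] at h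
    simpa using h
  have hκg : ∀ i, κ i g = 0 := by
    intro i
    have h := h3 i g
    rw [ract_apply, h6, slice_tmul, Finset.sum_eq_single i] at h
    · rw [if_pos rfl] at h
      have h' := congrArg (R.e 0) h
      rw [map_smul, map_smul, h5, heo, smul_zero, smul_eq_mul, mul_one] at h'
      exact h'.symm
    · intro l _ hl
      rw [if_neg (Ne.symm hl), smul_zero]
    · intro h
      exact absurd (Finset.mem_univ i) h
  exact ⟨{
    o := o
    g := g
    ν := ν
    fo := R.e 0
    fg := Coalgebra.counit (R := K) (A := C) - R.e 0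
    fν := fun i => κ i - κ i o • R.e 0
    comul_o := hcom
    comul_g := h6
    comul_ν := hν
    counit_o := hcou
    counit_g := h7
    counit_ν := hcν
    foo := heo
    fog := h5
    foν := h4
    fgo := by simp [hcou, heo]
    fgg := by simp [h7, h5]
    fgν := by
      intro i
      simp [hcν, h4]
    fνo := by
      intro i
      simp [heo]
    fνg := by
      intro i
      simp [hκg, h5]
    fνν := by
      intro i j
      simp [h2, h4] }⟩

end Rich

theorem wld_isWild (K : Type u) [Field K] : IsWild K (Wld K) := by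
  obtain ⟨D⟩ := (wldRich K).exists_kronData
    (bas (Vtx.node 0 0 0 (fun k => k.elim0) (fun k => k.elim0) (fun k => k.elim0)) 0)
    (bas_mem_rankSub (le_refl 0) 0) (wcomul_zero _) (wcounit_zero _)
  exact D.isWild

end Pool.Agent.Lib.FcWild
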