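import Pool.Agent.Lib.FcWild.Defs

/-!
Finite-dimensional modules over the free algebra on two generators: homomorphisms and submodules
are detected on generators; a two-dimensional indecomposable module and its composition series;
exactness of pulling back.
-/

universe u

namespace Pool.Agent.Lib.FcWild

namespace FdMod

variable {K : Type u} [Field K]

theorem act_algebraMap {W : Type u} [Ring W] [Algebra K W] (X : FdMod K W) (r : K)
    (x : X.carrier) : X.act (algebraMap K W r) x = r • x := by
  rw [Algebra.algebraMap_eq_smul_one, map_smul, LinearMap.smul_apply, X.act_one]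

theorem mem_hom_of_gen {X Y : FdMod K (FreeAlgebra K (Fin 2))} (φ : X.carrier →ₗ[K] Y.carrier)
    (h : ∀ i x, φ (X.act (FreeAlgebra.ι K i) x) = Y.act (FreeAlgebra.ι K i) (φ x)) :
    φ ∈ X.hom Y := by
  intro a
  induction a using FreeAlgebra.induction with
  | grade0 r =>
    intro x
    rw [act_algebraMap, act_algebraMap, map_smul]
  | grade1 i => exact h i
  | mul a b ha hb =>
    intro x
    rw [X.act_mul, Y.act_mul, hb, ha]
  | add a b ha hb =>
    intro x
    rw [map_add, map_add, LinearMap.add_apply, LinearMap.add_apply, map_add, ha, hb]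

theorem stable_of_gen {X : FdMod K (FreeAlgebra K (Fin 2))} (A : Submodule K X.carrier)
    (h : ∀ i, ∀ x ∈ A, X.act (FreeAlgebra.ι K i) x ∈ A) : ∀ a, ∀ x ∈ A, X.act a x ∈ A := by
  intro a
  induction a using FreeAlgebra.induction with
  | grade0 r =>
    intro x hx
    rw [act_algebraMap]
    exact A.smul_mem r hx
  | grade1 i => exact h i
  | mul a b ha hb =>
    intro x hx
    rw [X.act_mul]
    exact hb _ (ha _ hx)
  | add a b ha hb =>
    intro x hx
    rw [map_add, LinearMap.add_apply]
    exact A.add_mem (ha _ hx) (hb _ hx)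

/-- The right module over the free algebra given by two endomorphisms. -/
noncomputable def ofPair (V : Type u) [AddCommGroup V] [Module K V] [Module.Finite K V]
    (N : Fin 2 → V →ₗ[K] V) : FdMod K (FreeAlgebra K (Fin 2)) where
  carrier := V
  act :=
    { toFun := fun a => MulOpposite.unop
        (FreeAlgebra.lift K (fun i => MulOpposite.op (N i : Module.End K V)) a)
      map_add' := by
        intro a b
        rw [map_add, MulOpposite.unop_add]
      map_smul' := by
        intro c a
        rw [map_smul, MulOpposite.unop_smul]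
        rfl }
  act_one := by
    intro x
    simp
  act_mul := by
    intro a b x
    simp

theorem ofPair_act (V : Type u) [AddCommGroup V] [Module K V] [Module.Finite K V]
    (N : Fin 2 → V →ₗ[K] V) (i : Fin 2) (x : V) :
    (ofPair V N).act (FreeAlgebra.ι K i) x = N i x := by
  show MulOpposite.unop (FreeAlgebra.lift K (fun i => MulOpposite.op (N i : Module.End K V))
    (FreeAlgebra.ι K i)) x = N i x
  rw [FreeAlgebra.lift_ι_apply]
  rfl

/-- The one-dimensional module with zero action of the generators. -/
noncomputable def one (K : Type u) [Field K] : FdMod K (FreeAlgebra K (Fin 2)) :=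
  ofPair K fun _ => 0

/-- The two-dimensional indecomposable module. -/
noncomputable def two (K : Type u) [Field K] : FdMod K (FreeAlgebra K (Fin 2)) :=
  ofPair (K × K) fun i => if i = 0 then LinearMap.inr K K K ∘ₗ LinearMap.fst K K K else 0

theorem one_act (i : Fin 2) (x : K) : (one K).act (FreeAlgebra.ι K i) x = (0 : K) :=
  ofPair_act K (fun _ => 0) i x

theorem two_act_zero (x : K × K) :
    (two K).act (FreeAlgebra.ι K 0) x = ((0, x.1) : K × K) :=
  ofPair_act (K × K)
    (fun i => if i = 0 then LinearMap.inr K K K ∘ₗ LinearMap.fst K K K else 0) 0 x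

theorem two_act_one (x : K × K) : (two K).act (FreeAlgebra.ι K 1) x = (0 : K × K) :=
  ofPair_act (K × K)
    (fun i => if i = 0 then LinearMap.inr K K K ∘ₗ LinearMap.fst K K K else 0) 1 x

/-- The inclusion of the socle. -/
noncomputable def incl (K : Type u) [Field K] : (one K).hom (two K) :=
  ⟨LinearMap.inr K K K, mem_hom_of_gen (X := one K) (Y := two K) _ (by
    rw [Fin.forall_fin_two]
    constructor
    · intro (x : K)
      exact (congrArg (LinearMap.inr K K K) (one_act 0 x)).trans
        ((map_zero (LinearMap.inr K K K)).trans (two_act_zero ((LinearMap.inr K K K) x)).symm)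
    · intro (x : K)
      exact (congrArg (LinearMap.inr K K K) (one_act 1 x)).trans
        ((map_zero (LinearMap.inr K K K)).trans (two_act_one ((LinearMap.inr K K K) x)).symm))⟩

/-- The projection to the top. -/
noncomputable def proj (K : Type u) [Field K] : (two K).hom (one K) :=
  ⟨LinearMap.fst K K K, mem_hom_of_gen (X := two K) (Y := one K) _ (by
    rw [Fin.forall_fin_two]
    constructor
    · intro (x : K × K)
      exact (congrArg (LinearMap.fst K K K) (two_act_zero x)).trans
        (one_act 0 ((LinearMap.fst K K K) x)).symm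
    · intro (x : K × K)
      exact (congrArg (LinearMap.fst K K K) (two_act_one x)).trans
        (one_act 1 ((LinearMap.fst K K K) x)).symm)⟩

theorem shortExact_incl_proj : IsShortExact (incl K).1 (proj K).1 := by
  have h : IsShortExact (LinearMap.inr K K K) (LinearMap.fst K K K) :=
    ⟨LinearMap.inr_injective, LinearMap.range_inr K K K, LinearMap.fst_surjective⟩
  exact h

theorem one_indec : (one K).Indec := by
  refine ⟨(inferInstance : Nontrivial K), ?_⟩
  intro A B _ _ hAB
  have h : ∀ A : Submodule K K, A = ⊥ ∨ A = ⊤ := fun A => eq_bot_or_eq_top A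
  rcases h A with h1 | h1
  · exact Or.inl h1
  · right
    have h2 : (A : Submodule K (one K).carrier) ⊓ B = ⊥ := hAB.inf_eq_bot
    have h3 : (A : Submodule K (one K).carrier) = ⊤ := h1
    rw [h3, top_inf_eq] at h2
    exact h2

theorem two_indec : (two K).Indec := by
  refine ⟨(inferInstance : Nontrivial (K × K)), ?_⟩
  intro A B hA hB hAB
  by_contra hcon
  push Not at hcon
  have key : ∀ A : Submodule K (two K).carrier, (∀ a, ∀ x ∈ A, (two K).act a x ∈ A) → A ≠ ⊥ →
      ((0, 1) : K × K) ∈ A := by
    intro A hA hA0
    obtain ⟨x, hx, hx0⟩ := Submodule.exists_mem_ne_zero_of_ne_bot hA0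
    obtain ⟨a, b⟩ := x
    by_cases ha : a = 0
    · subst ha
      have hb : b ≠ 0 := by
        rintro rfl
        exact hx0 rfl
      have h1 := A.smul_mem b⁻¹ hx
      have h2 : b⁻¹ • ((0, b) : K × K) = (0, 1) := by
        ext
        · simp
        · simp [hb]
      exact (congrArg (· ∈ A) h2).mp h1
    · have h1 := A.smul_mem a⁻¹ ((congrArg (· ∈ A) (two_act_zero ((a, b) : K × K))).mp
        (hA (FreeAlgebra.ι K 0) _ hx))
      have h2 : a⁻¹ • ((0, a) : K × K) = (0, 1) := by
        ext
        · simp
        · simp [ha]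
      exact (congrArg (· ∈ A) h2).mp h1
  have h2 : ((0, 1) : K × K) = 0 :=
    (Submodule.disjoint_def.1 hAB.disjoint) _ (key A hA hcon.1) (key B hB hcon.2)
  exact one_ne_zero (congrArg Prod.snd h2)

/-- Pulling back homomorphisms. -/
def pullHom {W R : Type u} [Ring W] [Algebra K W] [Ring R] [Algebra K R] {n : ℕ}
    (θ : W →ₐ[K] Matrix (Fin n) (Fin n) R) {V V' : FdMod K R} (f : V.hom V') :
    (V.pull θ).hom (V'.pull θ) :=
  ⟨f.1.compLeft (Fin n), by
    intro w v
    refine funext fun j => ?_
    show f.1 ((LinearMap.pi fun j => ∑ i, V.act (θ w i j) ∘ₗ LinearMap.proj i) v j) =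
      (LinearMap.pi fun j => ∑ i, V'.act (θ w i j) ∘ₗ LinearMap.proj i)
        (fun i => f.1 (v i)) j
    simp only [LinearMap.pi_apply, LinearMap.sum_apply, LinearMap.comp_apply,
      LinearMap.proj_apply, map_sum, f.2 _ _]⟩

theorem pullHom_exact {W R : Type u} [Ring W] [Algebra K W] [Ring R] [Algebra K R] {n : ℕ}
    (θ : W →ₐ[K] Matrix (Fin n) (Fin n) R) {V V' V'' : FdMod K R} (f : V.hom V')
    (g : V'.hom V'') (h : IsShortExact f.1 g.1) :
    IsShortExact (pullHom θ f).1 (pullHom θ g).1 := by
  obtain ⟨h1, h2, h3⟩ := h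
  refine ⟨?_, ?_, ?_⟩
  · intro v w hvw
    refine funext fun i => h1 ?_
    exact congrFun hvw i
  · apply le_antisymm
    · rintro _ ⟨v, rfl⟩
      rw [LinearMap.mem_ker]
      refine funext fun i => ?_
      have h4 : f.1 (v i) ∈ LinearMap.ker g.1 := h2 ▸ LinearMap.mem_range_self f.1 (v i)
      exact h4
    · intro v hv
      rw [LinearMap.mem_ker] at hv
      have h4 : ∀ i, ∃ y, f.1 y = v i := by
        intro i
        have h5 : v i ∈ LinearMap.ker g.1 := congrFun hv i
        rw [← h2] at h5
        exact h5
      choose y hy using h4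
      exact ⟨y, funext hy⟩
  · intro v
    choose y hy using fun i => h3 (v i)
    exact ⟨y, funext hy⟩

end FdMod

end Pool.Agent.Lib.FcWild
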