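import Pool.Agent.Lib.FcWild.Lift
import Pool.Agent.Lib.FcWild.Mods

/-!
A rich coalgebra is not fc-wild.
-/

universe u

open scoped TensorProduct

namespace Pool.Agent.Lib.FcWild

open LComod

variable {K C : Type u} [Field K] [AddCommGroup C] [Module K C] [Coalgebra K C]

theorem LComod.isSub_range {X Y : LComod K C} (φ : X.hom Y) :
    Y.IsSub (LinearMap.range φ.1) := by
  rw [isSub_iff]
  rintro f _ ⟨x, rfl⟩
  exact ⟨X.act f x, hom_act φ f x⟩

/-- A split short exact sequence with indecomposable middle term has a zero end. -/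
theorem not_split {X' X X'' : LComod K C} (α : X'.hom X) (β : X.hom X'')
    (hs : IsShortExact α.1 β.1) (h' : Nontrivial X'.carrier) (h'' : Nontrivial X''.carrier)
    (hX : X.Indec) (p : X.hom X') (hp : ∀ x, p.1 (α.1 x) = x) : False := by
  obtain ⟨hα, hαβ, hβ⟩ := hs
  have hcompl : IsCompl (LinearMap.range α.1) (LinearMap.ker p.1) := by
    constructor
    · rw [Submodule.disjoint_def]
      rintro _ ⟨x, rfl⟩ hx
      rw [LinearMap.mem_ker, hp] at hx
      rw [hx, map_zero]
    · rw [codisjoint_iff_le_sup]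
      intro x _
      have h1 : x = α.1 (p.1 x) + (x - α.1 (p.1 x)) := by abel
      rw [h1]
      apply Submodule.add_mem_sup
      · exact ⟨_, rfl⟩
      · rw [LinearMap.mem_ker, map_sub, hp, sub_self]
  rcases hX.2 _ _ (isSub_range α) (isSub_ker p) hcompl with h | h
  · obtain ⟨x, hx⟩ := exists_ne (0 : X'.carrier)
    apply hx
    apply hα
    rw [map_zero]
    have h1 : α.1 x ∈ LinearMap.range α.1 := ⟨x, rfl⟩
    rw [h, Submodule.mem_bot] at h1
    exact h1
  · obtain ⟨y, hy⟩ := exists_ne (0 : X''.carrier)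
    obtain ⟨x, rfl⟩ := hβ y
    apply hy
    have h1 : x - α.1 (p.1 x) ∈ LinearMap.ker p.1 := by
      rw [LinearMap.mem_ker, map_sub, hp, sub_self]
    rw [h, Submodule.mem_bot, sub_eq_zero] at h1
    have h2 : α.1 (p.1 x) ∈ LinearMap.ker β.1 := hαβ ▸ LinearMap.mem_range_self α.1 _
    rw [h1]
    exact h2

theorem Rich.not_isFcWild (R : Rich K C) : ¬ IsFcWild K C := by
  rintro ⟨W, _, _, ⟨_, n, θ, hθ, _⟩, F, hF⟩
  have hs := F.exact _ _ (FdMod.pullHom_exact θ (FdMod.incl K) (FdMod.proj K)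
    FdMod.shortExact_incl_proj)
  obtain ⟨p, hp⟩ := R.splits (hF _) (hF _) _ _ hs
  have h1 := F.indec _ (hθ _ FdMod.one_indec)
  have h2 := F.indec _ (hθ _ FdMod.two_indec)
  exact not_split _ _ hs h1.1 h1.1 h2 p hp

end Pool.Agent.Lib.FcWild
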