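import Pool.Agent.Lib.FcWild.State
import Pool.Agent.Lib.FcWild.NotFc
import Pool.Agent.Lib.FcWild.Embed

/-!
Translation between the definitions used in the statement and the auxiliary ones used in the
proofs.
-/

universe u

open scoped TensorProduct

namespace Pool.Agent.Lib.FcWild

variable {K : Type u} [Field K]

/-! ### Modules -/

section Modules

variable {W : AlgCat.{u} K}

/-- The auxiliary version of a module. -/
noncomputable def RMod.old (X : RMod W) : FdMod K W where
  carrier := X.V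
  fin := X.fin
  act := LinearMap.mk₂ K (fun a x => X.act x a)
    (fun a b x => X.isMod.add_right x a b) (fun c a x => X.isMod.smul_right c x a)
    (fun a x y => X.isMod.add_left x y a) (fun c a x => X.isMod.smul_left c x a)
  act_one := fun x => X.isMod.one x
  act_mul := fun a b x => X.isMod.mul x a b

theorem RMod.old_indec (X : RMod W) : X.old.Indec ↔ IsIndecMod X.act := by
  constructor
  · intro h
    exact ⟨h.1, fun A B hA hB hAB => h.2 A B (fun a x hx => hA x hx a) (fun a x hx => hB x hx a)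
      hAB⟩
  · intro h
    exact ⟨h.1, fun A B hA hB hAB => h.2 A B (fun x hx a => hA a x hx) (fun x hx a => hB a x hx)
      hAB⟩

theorem RMod.old_hom (X Y : RMod W) (f : X.V →ₗ[K] Y.V) :
    f ∈ X.old.hom Y.old ↔ IsModHom X.act Y.act f :=
  ⟨fun h x a => h a x, fun h a x => h x a⟩

theorem RHom.ext' {X Y : RMod W} {f g : RHom X Y} (h : f.lin = g.lin) : f = g := by
  cases f
  cases g
  cases h
  rfl

theorem RMod.old_iso (X Y : RMod W) : X.old.Iso Y.old ↔ X.Iso Y := by
  constructor
  · rintro ⟨f, hf⟩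
    let F : X.V ≃ₗ[K] Y.V := f
    have hF : IsModHom X.act Y.act (F : X.V →ₗ[K] Y.V) := (RMod.old_hom X Y _).1 hf
    have hG : IsModHom Y.act X.act (F.symm : Y.V →ₗ[K] X.V) := by
      intro y a
      apply F.injective
      show F (F.symm (Y.act y a)) = F (X.act (F.symm y) a)
      have h1 : F (X.act (F.symm y) a) = Y.act (F (F.symm y)) a := hF (F.symm y) a
      rw [h1, F.apply_symm_apply, F.apply_symm_apply]
    refine ⟨⟨_, hF⟩, ⟨_, hG⟩, RHom.ext' ?_, RHom.ext' ?_⟩
    · refine LinearMap.ext fun x => ?_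
      exact F.symm_apply_apply x
    · refine LinearMap.ext fun x => ?_
      exact F.apply_symm_apply x
  · rintro ⟨f, g, hgf, hfg⟩
    have h1 : g.lin ∘ₗ f.lin = LinearMap.id := congrArg RHom.lin hgf
    have h2 : f.lin ∘ₗ g.lin = LinearMap.id := congrArg RHom.lin hfg
    exact ⟨LinearEquiv.ofLinearMap f.lin g.lin h2 h1, (RMod.old_hom X Y f.lin).2 f.isHom⟩

theorem RMod.row_old {R : AlgCat.{u} K} {n : ℕ} (θ : W →ₐ[K] Matrix (Fin n) (Fin n) R)
    (X : RMod R) : (X.row θ).old = X.old.pull θ := by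
  have h : (X.row θ).old.act = (X.old.pull θ).act := by
    refine LinearMap.ext fun a => LinearMap.ext fun v => funext fun j => ?_
    have h1 : (X.old.pull θ).act a v j = ∑ i, X.old.act (θ a i j) (v i) := by
      show (LinearMap.pi fun j => ∑ i, X.old.act (θ a i j) ∘ₗ LinearMap.proj i) v j = _
      simp only [LinearMap.pi_apply, LinearMap.sum_apply, LinearMap.comp_apply,
        LinearMap.proj_apply]
    exact h1.symm
  unfold RMod.old FdMod.pull at *
  congr 1

theorem isDrozdWildAlg_of_old {W : Type u} [Ring W] [Algebra K W] (h : IsDrozdWild K W) :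
    IsDrozdWildAlg (AlgCat.of K W) := by
  obtain ⟨hfin, n, θ, h1, h2⟩ := h
  refine ⟨hfin, n, θ, ?_, ?_⟩
  · intro V hV
    rw [← RMod.old_indec, RMod.row_old]
    exact h1 V.old ((RMod.old_indec V).2 hV)
  · intro V V' hVV'
    rw [← RMod.old_iso] at hVV' ⊢
    rw [RMod.row_old, RMod.row_old] at hVV'
    exact h2 V.old V'.old hVV'

/-- The new version of an auxiliary module. -/
noncomputable def FdMod.new {W : Type u} [Ring W] [Algebra K W] (X : FdMod K W) :
    RMod (AlgCat.of K W) where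
  V := ModuleCat.of K X.carrier
  act := fun x a => X.act a x
  isMod :=
    { add_left := fun x y a => map_add (X.act a) x y
      add_right := fun x a b => by
        show X.act (a + b) x = X.act a x + X.act b x
        rw [map_add, LinearMap.add_apply]
      smul_left := fun c x a => map_smul (X.act a) c x
      smul_right := fun c x a => by
        show X.act (c • a) x = c • X.act a x
        rw [map_smul, LinearMap.smul_apply]
      one := fun x => X.act_one x
      mul := fun x a b => X.act_mul a b x }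
  fin := X.fin

theorem FdMod.new_indec {W : Type u} [Ring W] [Algebra K W] (X : FdMod K W) (h : X.Indec) :
    IsIndecMod X.new.act :=
  ⟨h.1, fun A B hA hB hAB => h.2 A B (fun a x hx => hA x hx a) (fun a x hx => hB x hx a) hAB⟩

/-- The new version of an auxiliary homomorphism. -/
noncomputable def FdMod.newHom {W : Type u} [Ring W] [Algebra K W] {X Y : FdMod K W}
    (f : X.hom Y) : RHom X.new Y.new :=
  ⟨f.1, fun x a => f.2 a x⟩

/-- The homomorphism `Vⁿ → V'ⁿ` induced by `V → V'`. -/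
def RHom.row {R : AlgCat.{u} K} {n : ℕ} (θ : W →ₐ[K] Matrix (Fin n) (Fin n) R)
    {X Y : RMod R} (f : RHom X Y) : RHom (X.row θ) (Y.row θ) :=
  ⟨f.lin.compLeft (Fin n), by
    intro v a
    refine funext fun j => ?_
    show f.lin (∑ i, X.act (v i) (θ a i j)) = ∑ i, Y.act (f.lin (v i)) (θ a i j)
    rw [map_sum]
    exact Finset.sum_congr rfl fun i _ => f.isHom _ _⟩

theorem RHom.row_exact {R : AlgCat.{u} K} {n : ℕ} (θ : W →ₐ[K] Matrix (Fin n) (Fin n) R)
    {X Y Z : RMod R} (f : RHom X Y) (g : RHom Y Z) (h : ShortEx f.lin g.lin) :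
    ShortEx (f.row θ).lin (g.row θ).lin := by
  obtain ⟨h1, h2, h3⟩ := h
  refine ⟨?_, ?_, ?_⟩
  · intro v w hvw
    refine funext fun i => h1 ?_
    exact congrFun hvw i
  · apply le_antisymm
    · rintro _ ⟨v, rfl⟩
      rw [LinearMap.mem_ker]
      refine funext fun i => ?_
      have h4 : f.lin (v i) ∈ LinearMap.ker g.lin := h2 ▸ LinearMap.mem_range_self f.lin (v i)
      exact h4
    · intro v hv
      rw [LinearMap.mem_ker] at hv
      have h4 : ∀ i, ∃ y, f.lin y = v i := by
        intro i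
        have h5 : v i ∈ LinearMap.ker g.lin := congrFun hv i
        rw [← h2] at h5
        exact h5
      choose y hy using h4
      exact ⟨y, funext hy⟩
  · intro v
    choose y hy using fun i => h3 (v i)
    exact ⟨y, funext hy⟩

end Modules

/-! ### Comodules -/

section Comodules

variable {C : CoalgCat.{u} K} {M N : ModuleCat.{u} K}

/-- The auxiliary version of a comodule. -/
def oldC {ρ : M →ₗ[K] C ⊗[K] M} (h : IsCoaction ρ) : LComod K C where
  carrier := M
  coact := ρ
  coassoc := h.coassoc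
  counit_coact := h.counit

theorem isCoHom_iff {ρ : M →ₗ[K] C ⊗[K] M} {σ : N →ₗ[K] C ⊗[K] N} (hρ : IsCoaction ρ)
    (hσ : IsCoaction σ) (f : M →ₗ[K] N) : IsCoHom ρ σ f ↔ f ∈ (oldC hρ).hom (oldC hσ) := by
  constructor
  · intro h x
    exact LinearMap.congr_fun h x
  · intro h
    exact LinearMap.ext h

theorem LComod.isCoaction (X : LComod K C) :
    IsCoaction (C := C) (M := ModuleCat.of K X.carrier) X.coact :=
  ⟨X.coassoc, X.counit_coact⟩

theorem isInjective_of_new {ρ : M →ₗ[K] C ⊗[K] M} (hρ : IsCoaction ρ) (h : IsInjComod ρ) :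
    (oldC hρ).IsInjective := by
  intro Y Z i f hi
  obtain ⟨g, hg, hgi⟩ := h (ModuleCat.of K Y.carrier) (ModuleCat.of K Z.carrier) Y.coact Z.coact
    Y.isCoaction Z.isCoaction i.1 (LinearMap.ext i.2) hi f.1 (LinearMap.ext f.2)
  exact ⟨⟨g, fun x => LinearMap.congr_fun hg x⟩, hgi⟩

theorem isFinCopres_of_new {ρ : M →ₗ[K] C ⊗[K] M} (hρ : IsCoaction ρ)
    (h : IsFinCopresented ρ) : (oldC hρ).IsFinCopres := by
  obtain ⟨E, F, σ, τ, q, d, hσ, hτ, hiσ, hiτ, hsσ, hsτ, hq, hd, hqi, hqd⟩ := h
  exact ⟨oldC hσ, oldC hτ, ⟨q, fun x => LinearMap.congr_fun hq x⟩,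
    ⟨d, fun x => LinearMap.congr_fun hd x⟩, ⟨isInjective_of_new hσ hiσ, hsσ⟩,
    ⟨isInjective_of_new hτ hiτ, hsτ⟩, hqi, hqd⟩

theorem Rich.not_isFcWildCoalg (R : Rich K C) : ¬ IsFcWildCoalg C := by
  rintro ⟨W, ⟨_, n, θ, hθ, _⟩, F, hF⟩
  have hs := F.exact _ _ (RHom.row_exact θ (FdMod.newHom (FdMod.incl K))
    (FdMod.newHom (FdMod.proj K)) FdMod.shortExact_incl_proj)
  let X₁ := F.obj ((FdMod.one K).new.row θ)
  let X₂ := F.obj ((FdMod.two K).new.row θ)
  let α : (oldC X₁.isCoaction).hom (oldC X₂.isCoaction) :=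
    ⟨(F.map (RHom.row θ (FdMod.newHom (FdMod.incl K)))).lin,
      (isCoHom_iff _ _ _).1 (F.map (RHom.row θ (FdMod.newHom (FdMod.incl K)))).isHom⟩
  let β : (oldC X₂.isCoaction).hom (oldC X₁.isCoaction) :=
    ⟨(F.map (RHom.row θ (FdMod.newHom (FdMod.proj K)))).lin,
      (isCoHom_iff _ _ _).1 (F.map (RHom.row θ (FdMod.newHom (FdMod.proj K)))).isHom⟩
  have hs' : IsShortExact α.1 β.1 := hs
  obtain ⟨p, hp⟩ := R.splits (isFinCopres_of_new _ (hF _)) (isFinCopres_of_new _ (hF _)) α β hs'
  have h1 := F.indec _ (hθ _ (FdMod.new_indec _ FdMod.one_indec))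
  have h2 := F.indec _ (hθ _ (FdMod.new_indec _ FdMod.two_indec))
  exact not_split α β hs' h1.1 h1.1 ⟨h2.1, h2.2⟩ p hp

theorem isStronglyQuasifin_of_old (h : IsStronglyQuasifinite K C) : IsStronglyQuasifin C := by
  intro Y σ q hσ hq hsurj S τ hτ hS
  have hself : IsCoaction (selfCoact C) :=
    ⟨Coalgebra.coassoc, Coalgebra.rTensor_counit_comp_comul⟩
  have h1 := h (oldC hσ) ⟨q, fun x => LinearMap.congr_fun hq x⟩ hsurj (oldC hτ) hS
  have h2 : coHoms τ σ = (oldC hτ).hom (oldC hσ) := by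
    ext f
    exact isCoHom_iff hτ hσ f
  rw [h2]
  exact h1

theorem CHom.ext' {X Y : Comod C} {f g : CHom X Y} (h : f.lin = g.lin) : f = g := by
  cases f
  cases g
  cases h
  rfl

/-- The new version of an auxiliary comodule. -/
def LComod.new (X : LComod K C) : Comod C := ⟨ModuleCat.of K X.carrier, X.coact, X.isCoaction⟩

theorem LComod.iso_of_new (X Y : LComod K C) (h : X.new.Iso Y.new) : X.Iso Y := by
  obtain ⟨f, g, hgf, hfg⟩ := h
  have h1 : g.lin ∘ₗ f.lin = LinearMap.id := congrArg CHom.lin hgf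
  have h2 : f.lin ∘ₗ g.lin = LinearMap.id := congrArg CHom.lin hfg
  refine ⟨LinearEquiv.ofLinearMap f.lin g.lin h2 h1, fun x => ?_⟩
  exact LinearMap.congr_fun f.isHom x

/-- The new version of an auxiliary representation embedding. -/
noncomputable def RepEmbedding.new {W : Type u} [Ring W] [Algebra K W]
    (F : RepEmbedding K W C) : RepEmb (AlgCat.of K W) C where
  obj := fun X => (F.obj X.old).new
  map := fun {X Y} f =>
    ⟨(F.map (X := X.old) (Y := Y.old) ⟨f.lin, (RMod.old_hom X Y f.lin).2 f.isHom⟩).1,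
      LinearMap.ext fun x => (F.map (X := X.old) (Y := Y.old)
        ⟨f.lin, (RMod.old_hom X Y f.lin).2 f.isHom⟩).2 x⟩
  map_id := by
    intro X
    apply CHom.ext'
    exact congrArg Subtype.val (F.map_id X.old)
  map_comp := by
    intro X Y Z f g
    apply CHom.ext'
    exact congrArg Subtype.val (F.map_comp (X := X.old) (Y := Y.old) (Z := Z.old)
      ⟨f.lin, (RMod.old_hom X Y f.lin).2 f.isHom⟩ ⟨g.lin, (RMod.old_hom Y Z g.lin).2 g.isHom⟩)
  linear := by
    intro X Y c f g h hfgh
    let f' : X.old.hom Y.old := ⟨f.lin, (RMod.old_hom X Y f.lin).2 f.isHom⟩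
    let g' : X.old.hom Y.old := ⟨g.lin, (RMod.old_hom X Y g.lin).2 g.isHom⟩
    let h' : X.old.hom Y.old := ⟨h.lin, (RMod.old_hom X Y h.lin).2 h.isHom⟩
    have h1 : h' = c • f' + g' := Subtype.ext hfgh
    have h2 : F.map h' = c • F.map f' + F.map g' := by
      rw [h1, map_add, map_smul]
    exact congrArg Subtype.val h2
  exact := by
    intro X Y Z f g hfg
    exact F.exact (X := X.old) (Y := Y.old) (Z := Z.old)
      ⟨f.lin, (RMod.old_hom X Y f.lin).2 f.isHom⟩ ⟨g.lin, (RMod.old_hom Y Z g.lin).2 g.isHom⟩ hfg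
  indec := by
    intro X hX
    have h := F.indec X.old ((RMod.old_indec X).2 hX)
    exact ⟨h.1, h.2⟩
  reflect := by
    intro X Y h
    exact (RMod.old_iso X Y).1 (F.reflect X.old Y.old (LComod.iso_of_new _ _ h))

theorem isWildCoalg_of_old (h : IsWild K C) : IsWildCoalg C := by
  obtain ⟨W, _, _, hW, F, hF⟩ := h
  refine ⟨AlgCat.of K W, isDrozdWildAlg_of_old hW, F.new, fun X => ?_⟩
  have h := hF X.old
  exact h

end Comodules

end Pool.Agent.Lib.FcWild
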