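import Pool.Agent.Lib.FcWild.Basic

/-!
A concrete coalgebra: the free vector space on pairs `(v, l)` with `v` a formal vertex and `l` a
natural number. A vertex stores a matrix of linear combinations of basis elements of smaller
rank; if this matrix is multiplicative then the vertex realises the corresponding comodule.
-/

universe u

open scoped TensorProduct

namespace Pool.Agent.Lib.FcWild

/-- Formal vertices. -/
inductive Vtx (K : Type u) : Type u
  | node (r d s : ℕ) (child : Fin s → Vtx K) (lidx : Fin s → ℕ)
      (coef : Fin d → Fin d → Fin s → K) : Vtx K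

/-- The underlying space of the coalgebra. -/
def Wld (K : Type u) [Field K] : Type u := (Vtx K × ℕ) →₀ K

section

variable {K : Type u} [Field K]

noncomputable instance : AddCommGroup (Wld K) :=
  inferInstanceAs (AddCommGroup ((Vtx K × ℕ) →₀ K))

noncomputable instance : Module K (Wld K) :=
  inferInstanceAs (Module K ((Vtx K × ℕ) →₀ K))

/-- The basis elements. -/
noncomputable def bas (v : Vtx K) (l : ℕ) : Wld K :=
  (Finsupp.single (v, l) 1 : (Vtx K × ℕ) →₀ K)

/-- The linear map with prescribed values on the basis. -/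
noncomputable def lc {M : Type u} [AddCommGroup M] [Module K M] (f : Vtx K → ℕ → M) :
    Wld K →ₗ[K] M :=
  (Finsupp.linearCombination K (fun p : Vtx K × ℕ => f p.1 p.2) :
    ((Vtx K × ℕ) →₀ K) →ₗ[K] M)

@[simp]
theorem lc_bas {M : Type u} [AddCommGroup M] [Module K M] (f : Vtx K → ℕ → M) (v : Vtx K)
    (l : ℕ) : lc f (bas v l) = f v l := by
  have : Finsupp.linearCombination K (fun p : Vtx K × ℕ => f p.1 p.2)
      (Finsupp.single (v, l) (1 : K)) = f v l := by
    rw [Finsupp.linearCombination_single, one_smul]
  exact this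

theorem ext_bas {M : Type u} [AddCommGroup M] [Module K M] {f g : Wld K →ₗ[K] M}
    (h : ∀ v l, f (bas v l) = g (bas v l)) : f = g := by
  have : (f : ((Vtx K × ℕ) →₀ K) →ₗ[K] M) = (g : ((Vtx K × ℕ) →₀ K) →ₗ[K] M) := by
    apply Finsupp.lhom_ext'
    intro p
    apply LinearMap.ext_ring
    exact h p.1 p.2
  exact this

namespace Vtx

/-- The rank of a vertex. -/
def rank : Vtx K → ℕ
  | node r _ _ _ _ _ => r

/-- The dimension of the comodule stored at a vertex. -/
def dim : Vtx K → ℕ
  | node _ d _ _ _ _ => d

/-- The matrix stored at a vertex. -/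
noncomputable def mat : (v : Vtx K) → Fin v.dim → Fin v.dim → Wld K
  | node _ _ _ child lidx coef => fun i j => ∑ k, coef i j k • bas (child k) (lidx k)

open Classical in
/-- The comultiplication on basis elements, given the truth value of goodness. -/
noncomputable def dl (v : Vtx K) (P : Prop) : ℕ → Wld K ⊗[K] Wld K
  | 0 => bas v 0 ⊗ₜ[K] bas v 0
  | (l + 1) => if h : P ∧ l < v.dim then
      bas v 0 ⊗ₜ[K] bas v (l + 1) + ∑ i : Fin v.dim, bas v (i + 1) ⊗ₜ[K] v.mat i ⟨l, h.2⟩
    else bas v (l + 1) ⊗ₜ[K] bas v (l + 1)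

open Classical in
/-- The counit on basis elements, given the truth value of goodness. -/
noncomputable def ep (v : Vtx K) (P : Prop) : ℕ → K
  | 0 => 1
  | (l + 1) => if P ∧ l < v.dim then 0 else 1

/-- Good vertices: the stored matrix is multiplicative and of smaller rank. -/
def Good : Vtx K → Prop
  | node r d _ child lidx coef =>
    (∀ k, (child k).rank < r) ∧
    (∀ i j : Fin d, ∑ k, coef i j k • dl (child k) (Good (child k)) (lidx k) =
      ∑ l : Fin d, (∑ k, coef i l k • bas (child k) (lidx k)) ⊗ₜ[K]
        (∑ k, coef l j k • bas (child k) (lidx k))) ∧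
    (∀ i j : Fin d, ∑ k, coef i j k • ep (child k) (Good (child k)) (lidx k) =
      if i = j then 1 else 0)

end Vtx

open Vtx

/-- The comultiplication. -/
noncomputable def wcomul : Wld K →ₗ[K] Wld K ⊗[K] Wld K := lc fun v l => dl v (Good v) l

/-- The counit. -/
noncomputable def wcounit : Wld K →ₗ[K] K := lc fun v l => ep v (Good v) l

theorem wcomul_zero (v : Vtx K) : wcomul (bas v 0) = bas v 0 ⊗ₜ[K] bas v 0 := by
  rw [wcomul, lc_bas, dl]

theorem wcomul_good {v : Vtx K} (hv : Good v) {l : ℕ} (hl : l < v.dim) :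
    wcomul (bas v (l + 1)) = bas v 0 ⊗ₜ[K] bas v (l + 1) +
      ∑ i : Fin v.dim, bas v (i + 1) ⊗ₜ[K] v.mat i ⟨l, hl⟩ := by
  rw [wcomul, lc_bas, dl, dif_pos ⟨hv, hl⟩]

theorem wcomul_bad {v : Vtx K} {l : ℕ} (h : ¬ (Good v ∧ l < v.dim)) :
    wcomul (bas v (l + 1)) = bas v (l + 1) ⊗ₜ[K] bas v (l + 1) := by
  rw [wcomul, lc_bas, dl, dif_neg h]

theorem wcounit_zero (v : Vtx K) : wcounit (bas v 0) = 1 := by
  rw [wcounit, lc_bas, ep]

theorem wcounit_good {v : Vtx K} (hv : Good v) {l : ℕ} (hl : l < v.dim) :
    wcounit (bas v (l + 1)) = 0 := by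
  rw [wcounit, lc_bas, ep, if_pos ⟨hv, hl⟩]

theorem wcounit_bad {v : Vtx K} {l : ℕ} (h : ¬ (Good v ∧ l < v.dim)) :
    wcounit (bas v (l + 1)) = 1 := by
  rw [wcounit, lc_bas, ep, if_neg h]

theorem good_node_iff (r d s : ℕ) (child : Fin s → Vtx K) (lidx : Fin s → ℕ)
    (coef : Fin d → Fin d → Fin s → K) :
    Good (node r d s child lidx coef) ↔
      (∀ k, (child k).rank < r) ∧
      (∀ i j : Fin d, wcomul (∑ k, coef i j k • bas (child k) (lidx k)) =
        ∑ l : Fin d, (∑ k, coef i l k • bas (child k) (lidx k)) ⊗ₜ[K]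
          (∑ k, coef l j k • bas (child k) (lidx k))) ∧
      (∀ i j : Fin d, wcounit (∑ k, coef i j k • bas (child k) (lidx k)) =
        if i = j then 1 else 0) := by
  rw [Good]
  simp only [map_sum, map_smul, wcomul, wcounit, lc_bas]

theorem wcomul_mat {v : Vtx K} (hv : Good v) (i j : Fin v.dim) :
    wcomul (v.mat i j) = ∑ l, v.mat i l ⊗ₜ[K] v.mat l j := by
  cases v with
  | node r d s child lidx coef =>
    rw [good_node_iff] at hv
    exact hv.2.1 i j

theorem wcounit_mat {v : Vtx K} (hv : Good v) (i j : Fin v.dim) :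
    wcounit (v.mat i j) = if i = j then 1 else 0 := by
  cases v with
  | node r d s child lidx coef =>
    rw [good_node_iff] at hv
    exact hv.2.2 i j

noncomputable instance instWldCoalg : Coalgebra K (Wld K) where
  comul := wcomul
  counit := wcounit
  coassoc := by
    apply ext_bas
    intro v l
    simp only [LinearMap.comp_apply, LinearEquiv.coe_coe]
    cases l with
    | zero =>
      rw [wcomul_zero, LinearMap.rTensor_tmul, LinearMap.lTensor_tmul, wcomul_zero,
        TensorProduct.assoc_tmul]
    | succ l =>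
      by_cases h : Good v ∧ l < v.dim
      · obtain ⟨hv, hl⟩ := h
        rw [wcomul_good hv hl]
        simp only [map_add, map_sum, LinearMap.rTensor_tmul, LinearMap.lTensor_tmul,
          wcomul_zero, wcomul_good hv hl, wcomul_mat hv, TensorProduct.assoc_tmul,
          TensorProduct.tmul_add, TensorProduct.tmul_sum]
        have h1 : ∀ i : Fin v.dim, wcomul (bas v (i + 1)) = bas v 0 ⊗ₜ[K] bas v (i + 1) +
            ∑ k : Fin v.dim, bas v (k + 1) ⊗ₜ[K] v.mat k i := fun i => wcomul_good hv i.2
        simp only [h1, TensorProduct.add_tmul, TensorProduct.sum_tmul, map_add, map_sum,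
          TensorProduct.assoc_tmul, Finset.sum_add_distrib]
        rw [Finset.sum_comm, add_assoc]
      · rw [wcomul_bad h, LinearMap.rTensor_tmul, LinearMap.lTensor_tmul, wcomul_bad h,
          TensorProduct.assoc_tmul]
  rTensor_counit_comp_comul := by
    apply ext_bas
    intro v l
    simp only [LinearMap.comp_apply]
    cases l with
    | zero =>
      rw [wcomul_zero, LinearMap.rTensor_tmul, wcounit_zero]
      rfl
    | succ l =>
      by_cases h : Good v ∧ l < v.dim
      · obtain ⟨hv, hl⟩ := h
        rw [wcomul_good hv hl, map_add, map_sum, LinearMap.rTensor_tmul, wcounit_zero,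
          Finset.sum_eq_zero]
        · rw [add_zero]
          rfl
        · intro i _
          rw [LinearMap.rTensor_tmul, wcounit_good hv i.2, TensorProduct.zero_tmul]
      · rw [wcomul_bad h, LinearMap.rTensor_tmul, wcounit_bad h]
        rfl
  lTensor_counit_comp_comul := by
    apply ext_bas
    intro v l
    simp only [LinearMap.comp_apply]
    cases l with
    | zero =>
      rw [wcomul_zero, LinearMap.lTensor_tmul, wcounit_zero]
      rfl
    | succ l =>
      by_cases h : Good v ∧ l < v.dim
      · obtain ⟨hv, hl⟩ := h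
        rw [wcomul_good hv hl, map_add, map_sum, LinearMap.lTensor_tmul, wcounit_good hv hl,
          TensorProduct.tmul_zero, zero_add, Finset.sum_eq_single ⟨l, hl⟩]
        · rw [LinearMap.lTensor_tmul, wcounit_mat hv, if_pos rfl]
          rfl
        · intro i _ hi
          rw [LinearMap.lTensor_tmul, wcounit_mat hv, if_neg hi, TensorProduct.tmul_zero]
        · intro hh
          exact absurd (Finset.mem_univ _) hh
      · rw [wcomul_bad h, LinearMap.lTensor_tmul, wcounit_bad h]
        rfl

theorem comul_eq : (Coalgebra.comul (R := K) (A := Wld K)) = wcomul := rfl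

theorem counit_eq : (Coalgebra.counit (R := K) (A := Wld K)) = wcounit := rfl

end

end Pool.Agent.Lib.FcWild
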