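import Mathlib

/-!
Auxiliary bundled definitions, used in the proofs only, for the comparison of wild and fc-wild coalgebras: finite-dimensional right modules
over an algebra, left comodules over a coalgebra, socles, injective comodules, finitely
copresented comodules, representation embeddings, and the wildness notions.
-/

universe u

open scoped TensorProduct

namespace Pool.Agent.Lib.FcWild

/-- A pair of linear maps `A → B → D` which is a short exact sequence
`0 → A → B → D → 0`. -/
def IsShortExact {K A B D : Type u} [Field K] [AddCommGroup A] [Module K A] [AddCommGroup B]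
    [Module K B] [AddCommGroup D] [Module K D] (f : A →ₗ[K] B) (g : B →ₗ[K] D) : Prop :=
  Function.Injective f ∧ LinearMap.range f = LinearMap.ker g ∧ Function.Surjective g

/-! ### Finite-dimensional right modules -/

/-- A right module over the `K`-algebra `W` whose underlying `K`-vector space is
finite-dimensional. Here `act a x` is the product `x · a`. -/
structure FdMod (K W : Type u) [Field K] [Ring W] [Algebra K W] where
  carrier : Type u
  [grp : AddCommGroup carrier]
  [mod : Module K carrier]
  [fin : Module.Finite K carrier]
  act : W →ₗ[K] carrier →ₗ[K] carrier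
  act_one : ∀ x, act 1 x = x
  act_mul : ∀ a b x, act (a * b) x = act b (act a x)

attribute [instance] FdMod.grp FdMod.mod FdMod.fin

namespace FdMod

variable {K W : Type u} [Field K] [Ring W] [Algebra K W]

/-- The space of homomorphisms of right `W`-modules. -/
def hom (X Y : FdMod K W) : Submodule K (X.carrier →ₗ[K] Y.carrier) where
  carrier := {f | ∀ a x, f (X.act a x) = Y.act a (f x)}
  add_mem' := by
    intro f g hf hg a x
    simp only [LinearMap.add_apply, hf a x, hg a x, map_add]
  zero_mem' := by
    intro a x
    simp only [LinearMap.zero_apply, map_zero]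
  smul_mem' := by
    intro c f hf a x
    simp only [LinearMap.smul_apply, hf a x, map_smul]

/-- The identity homomorphism. -/
def idHom (X : FdMod K W) : X.hom X := ⟨LinearMap.id, fun _ _ => rfl⟩

/-- Composition of homomorphisms. -/
def compHom {X Y Z : FdMod K W} (g : Y.hom Z) (f : X.hom Y) : X.hom Z :=
  ⟨g.1 ∘ₗ f.1, fun a x => (congrArg g.1 (f.2 a x)).trans (g.2 a (f.1 x))⟩

/-- Two right modules are isomorphic. -/
def Iso (X Y : FdMod K W) : Prop :=
  ∃ f : X.carrier ≃ₗ[K] Y.carrier, (f : X.carrier →ₗ[K] Y.carrier) ∈ X.hom Y

/-- A right module is indecomposable: it is nonzero and is not the direct sum of two nonzero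
submodules. -/
def Indec (X : FdMod K W) : Prop :=
  Nontrivial X.carrier ∧ ∀ A B : Submodule K X.carrier,
    (∀ a, ∀ x ∈ A, X.act a x ∈ A) → (∀ a, ∀ x ∈ B, X.act a x ∈ B) →
      IsCompl A B → A = ⊥ ∨ B = ⊥

/-- Given a homomorphism `θ : W → Mₙ(R)` of `K`-algebras and a right `R`-module `V`, the right
`W`-module `V ⊗_R Rⁿ = Vⁿ` of row vectors with `n` entries in `V`, on which `w` in `W` acts by
multiplication with the matrix `θ w` from the right. -/
def pull {R : Type u} [Ring R] [Algebra K R] {n : ℕ} (θ : W →ₐ[K] Matrix (Fin n) (Fin n) R)
    (V : FdMod K R) : FdMod K W where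
  carrier := Fin n → V.carrier
  act :=
    { toFun := fun w => LinearMap.pi fun j => ∑ i, V.act (θ w i j) ∘ₗ LinearMap.proj i
      map_add' := by
        intro a b
        ext v j
        simp [Finset.sum_add_distrib]
      map_smul' := by
        intro c a
        ext v j
        simp [Finset.smul_sum] }
  act_one := by
    intro v
    ext j
    simp only [map_one, LinearMap.coe_mk, AddHom.coe_mk, LinearMap.pi_apply, LinearMap.sum_apply,
      LinearMap.comp_apply, LinearMap.proj_apply]
    rw [Finset.sum_eq_single j]
    · rw [Matrix.one_apply_eq, V.act_one]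
    · intro i _ hi
      rw [Matrix.one_apply_ne hi, map_zero, LinearMap.zero_apply]
    · intro h
      exact absurd (Finset.mem_univ j) h
  act_mul := by
    intro a b v
    ext j
    simp only [map_mul, LinearMap.coe_mk, AddHom.coe_mk, LinearMap.pi_apply, LinearMap.sum_apply,
      LinearMap.comp_apply, LinearMap.proj_apply, Matrix.mul_apply, map_sum, V.act_mul]
    rw [Finset.sum_comm]

end FdMod

/-- A finite-dimensional `K`-algebra `W` is wild in the sense of Drozd: there is a
`K⟨x,y⟩`-`W`-bimodule, free of finite rank `n` as a left module (that is, a `K`-algebra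
homomorphism `W → Mₙ(K⟨x,y⟩)`), such that tensoring with it, as a functor from
finite-dimensional right `K⟨x,y⟩`-modules to finite-dimensional right `W`-modules, preserves
indecomposability and reflects isomorphism. -/
def IsDrozdWild (K W : Type u) [Field K] [Ring W] [Algebra K W] : Prop :=
  Module.Finite K W ∧
    ∃ (n : ℕ) (θ : W →ₐ[K] Matrix (Fin n) (Fin n) (FreeAlgebra K (Fin 2))),
      (∀ V : FdMod K (FreeAlgebra K (Fin 2)), V.Indec → (V.pull θ).Indec) ∧
        ∀ V V' : FdMod K (FreeAlgebra K (Fin 2)), (V.pull θ).Iso (V'.pull θ) → V.Iso V'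

/-! ### Left comodules -/

/-- A left comodule over the `K`-coalgebra `C`. -/
structure LComod (K C : Type u) [Field K] [AddCommGroup C] [Module K C] [Coalgebra K C] where
  carrier : Type u
  [grp : AddCommGroup carrier]
  [mod : Module K carrier]
  coact : carrier →ₗ[K] C ⊗[K] carrier
  coassoc : (TensorProduct.assoc K C C carrier).toLinearMap ∘ₗ
      (Coalgebra.comul (R := K) (A := C)).rTensor carrier ∘ₗ coact = coact.lTensor C ∘ₗ coact
  counit_coact : (Coalgebra.counit (R := K) (A := C)).rTensor carrier ∘ₗ coact =
      TensorProduct.mk K K carrier 1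

attribute [instance] LComod.grp LComod.mod

namespace LComod

variable {K C : Type u} [Field K] [AddCommGroup C] [Module K C] [Coalgebra K C]

/-- The space of homomorphisms of left comodules. -/
def hom (X Y : LComod K C) : Submodule K (X.carrier →ₗ[K] Y.carrier) where
  carrier := {f | ∀ x, Y.coact (f x) = f.lTensor C (X.coact x)}
  add_mem' := by
    intro f g hf hg x
    simp only [LinearMap.add_apply, map_add, hf x, hg x, LinearMap.lTensor_add]
  zero_mem' := by
    intro x
    simp only [LinearMap.zero_apply, map_zero, LinearMap.lTensor_zero]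
  smul_mem' := by
    intro c f hf x
    simp only [LinearMap.smul_apply, map_smul, hf x, LinearMap.lTensor_smul]

/-- The identity homomorphism. -/
def idHom (X : LComod K C) : X.hom X :=
  ⟨LinearMap.id, fun x => by rw [LinearMap.lTensor_id, LinearMap.id_apply, LinearMap.id_apply]⟩

/-- Composition of homomorphisms. -/
def compHom {X Y Z : LComod K C} (g : Y.hom Z) (f : X.hom Y) : X.hom Z :=
  ⟨g.1 ∘ₗ f.1, fun x => by
    rw [LinearMap.comp_apply, g.2 (f.1 x), f.2 x, LinearMap.lTensor_comp_apply]⟩

/-- Two left comodules are isomorphic. -/
def Iso (X Y : LComod K C) : Prop :=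
  ∃ f : X.carrier ≃ₗ[K] Y.carrier, (f : X.carrier →ₗ[K] Y.carrier) ∈ X.hom Y

/-- A subspace `A` of `X` is a subcomodule: the coaction maps `A` into `C ⊗ A`. -/
def IsSub (X : LComod K C) (A : Submodule K X.carrier) : Prop :=
  ∀ x ∈ A, X.coact x ∈ LinearMap.range (A.subtype.lTensor C)

/-- A left comodule is indecomposable: it is nonzero and is not the direct sum of two nonzero
subcomodules. -/
def Indec (X : LComod K C) : Prop :=
  Nontrivial X.carrier ∧ ∀ A B : Submodule K X.carrier,
    X.IsSub A → X.IsSub B → IsCompl A B → A = ⊥ ∨ B = ⊥

/-- A subspace of `X` is a simple subcomodule. -/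
def IsSimpleSub (X : LComod K C) (A : Submodule K X.carrier) : Prop :=
  X.IsSub A ∧ A ≠ ⊥ ∧ ∀ B ≤ A, X.IsSub B → B = ⊥ ∨ B = A

/-- A comodule is simple. -/
def IsSimple (X : LComod K C) : Prop := X.IsSimpleSub ⊤

/-- The socle of a comodule: the sum of its simple subcomodules. -/
def socle (X : LComod K C) : Submodule K X.carrier := sSup {A | X.IsSimpleSub A}

/-- A comodule `E` is injective: homomorphisms into `E` extend along injective
homomorphisms. -/
def IsInjective (E : LComod K C) : Prop :=
  ∀ (Y Z : LComod K C) (i : Y.hom Z) (f : Y.hom E), Function.Injective i.1 →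
    ∃ g : Z.hom E, g.1 ∘ₗ i.1 = f.1

/-- A comodule is a socle-finite injective comodule. -/
def IsSocleFiniteInjective (E : LComod K C) : Prop :=
  E.IsInjective ∧ Module.Finite K E.socle

/-- A comodule `X` is finitely copresented: there is an exact sequence `0 → X → E₁ → E₂` with
`E₁` and `E₂` socle-finite injective comodules. -/
def IsFinCopres (X : LComod K C) : Prop :=
  ∃ (E₁ E₂ : LComod K C) (q : X.hom E₁) (d : E₁.hom E₂), E₁.IsSocleFiniteInjective ∧
    E₂.IsSocleFiniteInjective ∧ Function.Injective q.1 ∧ LinearMap.range q.1 = LinearMap.ker d.1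

/-- A comodule `X` is quasifinite: the space of homomorphisms from every simple comodule to `X`
is finite-dimensional. -/
def IsQuasifinite (X : LComod K C) : Prop :=
  ∀ S : LComod K C, S.IsSimple → Module.Finite K (S.hom X)

variable (K C) in
/-- The coalgebra `C` as a left comodule over itself. -/
def regular : LComod K C where
  carrier := C
  coact := Coalgebra.comul
  coassoc := Coalgebra.coassoc
  counit_coact := Coalgebra.rTensor_counit_comp_comul

end LComod

/-- A representation embedding of the category of finite-dimensional right `W`-modules into the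
category of left `C`-comodules: a `K`-linear functor which carries short exact sequences to short
exact sequences and indecomposable modules to indecomposable comodules, and which reflects
isomorphism. -/
structure RepEmbedding (K W C : Type u) [Field K] [Ring W] [Algebra K W] [AddCommGroup C]
    [Module K C] [Coalgebra K C] where
  obj : FdMod K W → LComod K C
  map : ∀ {X Y : FdMod K W}, X.hom Y →ₗ[K] (obj X).hom (obj Y)
  map_id : ∀ X : FdMod K W, map X.idHom = (obj X).idHom
  map_comp : ∀ {X Y Z : FdMod K W} (f : X.hom Y) (g : Y.hom Z),
    map (FdMod.compHom g f) = LComod.compHom (map g) (map f)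
  exact : ∀ {X Y Z : FdMod K W} (f : X.hom Y) (g : Y.hom Z),
    IsShortExact f.1 g.1 → IsShortExact (map f).1 (map g).1
  indec : ∀ X : FdMod K W, X.Indec → (obj X).Indec
  reflect : ∀ X Y : FdMod K W, (obj X).Iso (obj Y) → X.Iso Y

section Wild

variable (K C : Type u) [Field K] [AddCommGroup C] [Module K C] [Coalgebra K C]

/-- The coalgebra `C` is wild: there are a finite-dimensional wild algebra `W` and a
representation embedding of the finite-dimensional right `W`-modules into the finite-dimensional
left `C`-comodules. -/
def IsWild : Prop :=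
  ∃ (W : Type u) (_ : Ring W) (_ : Algebra K W), IsDrozdWild K W ∧
    ∃ F : RepEmbedding K W C, ∀ X, Module.Finite K (F.obj X).carrier

/-- The coalgebra `C` is fc-wild: there are a finite-dimensional wild algebra `W` and a
representation embedding of the finite-dimensional right `W`-modules into the finitely
copresented left `C`-comodules. -/
def IsFcWild : Prop :=
  ∃ (W : Type u) (_ : Ring W) (_ : Algebra K W), IsDrozdWild K W ∧
    ∃ F : RepEmbedding K W C, ∀ X, (F.obj X).IsFinCopres

/-- The coalgebra `C` is f-quasifinite: every quotient comodule of the left comodule `C` by a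
finite-dimensional subcomodule is quasifinite. -/
def IsFQuasifinite : Prop :=
  ∀ (Y : LComod K C) (q : (LComod.regular K C).hom Y), Function.Surjective q.1 →
    Module.Finite K (LinearMap.ker q.1) → Y.IsQuasifinite

/-- The coalgebra `C` is strongly quasifinite: every quotient comodule of the left comodule `C`
is quasifinite. -/
def IsStronglyQuasifinite : Prop :=
  ∀ (Y : LComod K C) (q : (LComod.regular K C).hom Y), Function.Surjective q.1 →
    Y.IsQuasifinite

end Wild

end Pool.Agent.Lib.FcWild
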