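import Pool.Agent.Lib.FcWild.Mods

/-!
The path algebra of the Kronecker quiver with three arrows, realised as an algebra of triangular
matrices over the free algebra on two generators, is wild in the sense of Drozd.
-/

universe u

namespace Pool.Agent.Lib.FcWild

variable (K : Type u) [Field K]

/-- The free algebra on two generators. -/
abbrev Fr : Type u := FreeAlgebra K (Fin 2)

/-- The linear parametrisation of the triangular matrices. -/
noncomputable def kronL : (K × K × K × K × K) →ₗ[K] Matrix (Fin 2) (Fin 2) (Fr K) where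
  toFun t := !![t.1 • (1 : Fr K), t.2.2.1 • (1 : Fr K) +
      t.2.2.2.1 • FreeAlgebra.ι K 0 + t.2.2.2.2 • FreeAlgebra.ι K 1;
      0, t.2.1 • (1 : Fr K)]
  map_add' := by
    intro s t
    ext i j
    fin_cases i <;> fin_cases j <;> simp [add_smul]
    abel
  map_smul' := by
    intro c t
    ext i j
    fin_cases i <;> fin_cases j <;> simp [mul_smul]

theorem kronL_apply (a b p q r : K) : kronL K (a, b, p, q, r) =
    !![a • (1 : Fr K), p • (1 : Fr K) + q • FreeAlgebra.ι K 0 + r • FreeAlgebra.ι K 1;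
      0, b • (1 : Fr K)] := rfl

/-- The path algebra of the Kronecker quiver with three arrows. -/
noncomputable def kron : Subalgebra K (Matrix (Fin 2) (Fin 2) (Fr K)) where
  carrier := Set.range (kronL K)
  mul_mem' := by
    rintro _ _ ⟨⟨a, b, p, q, r⟩, rfl⟩ ⟨⟨a', b', p', q', r'⟩, rfl⟩
    refine ⟨(a * a', b * b', a * p' + p * b', a * q' + q * b', a * r' + r * b'), ?_⟩
    rw [kronL_apply, kronL_apply, kronL_apply]
    ext i j
    fin_cases i <;> fin_cases j
    · simp [Matrix.mul_apply, smul_smul, mul_comm]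
    · simp [Matrix.mul_apply, smul_smul, mul_add, add_smul, mul_comm]
      abel
    · simp [Matrix.mul_apply]
    · simp [Matrix.mul_apply, smul_smul, mul_comm]
  add_mem' := by
    rintro _ _ ⟨s, rfl⟩ ⟨t, rfl⟩
    exact ⟨s + t, map_add _ _ _⟩
  algebraMap_mem' := by
    intro r
    refine ⟨(r, r, 0, 0, 0), ?_⟩
    rw [kronL_apply]
    ext i j
    fin_cases i <;> fin_cases j <;>
      simp [Matrix.algebraMap_matrix_apply, Algebra.algebraMap_eq_smul_one]

theorem kron_finite : Module.Finite K (kron K) := by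
  have h : Subalgebra.toSubmodule (kron K) = LinearMap.range (kronL K) := rfl
  have h1 : Module.Finite K (LinearMap.range (kronL K)) := Module.Finite.range _
  rw [← h] at h1
  exact h1

/-- The element of the Kronecker algebra with the given coordinates. -/
noncomputable def kel (a b p q r : K) : kron K := ⟨kronL K (a, b, p, q, r), ⟨_, rfl⟩⟩

theorem kel_surj (w : kron K) : ∃ a b p q r, w = kel K a b p q r := by
  obtain ⟨_, ⟨⟨a, b, p, q, r⟩, rfl⟩⟩ := w
  exact ⟨a, b, p, q, r, rfl⟩

theorem kel_mul (a b p q r a' b' p' q' r' : K) :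
    kel K a b p q r * kel K a' b' p' q' r' =
      kel K (a * a') (b * b') (a * p' + p * b') (a * q' + q * b') (a * r' + r * b') := by
  apply Subtype.ext
  show kronL K (a, b, p, q, r) * kronL K (a', b', p', q', r') = kronL K _
  rw [kronL_apply, kronL_apply, kronL_apply]
  ext i j
  fin_cases i <;> fin_cases j
  · simp [Matrix.mul_apply, smul_smul, mul_comm]
  · simp [Matrix.mul_apply, smul_smul, mul_add, add_smul, mul_comm]
    abel
  · simp [Matrix.mul_apply]
  · simp [Matrix.mul_apply, smul_smul, mul_comm]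

theorem kel_one : kel K 1 1 0 0 0 = 1 := by
  apply Subtype.ext
  show kronL K _ = 1
  rw [kronL_apply]
  ext i j
  fin_cases i <;> fin_cases j <;> simp

theorem kel_expand (a b p q r : K) : kel K a b p q r = a • kel K 1 0 0 0 0 +
    b • kel K 0 1 0 0 0 + p • kel K 0 0 1 0 0 + q • kel K 0 0 0 1 0 + r • kel K 0 0 0 0 1 := by
  apply Subtype.ext
  show kronL K _ = a • kronL K _ + b • kronL K _ + p • kronL K _ + q • kronL K _ + r • kronL K _
  simp only [← map_smul, ← map_add]
  congr 1
  simp

section Pull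

variable {K}

theorem pull_kel (V : FdMod K (Fr K)) (a b p q r : K) (v : Fin 2 → V.carrier) :
    (V.pull (kron K).val).act (kel K a b p q r) v =
      ![a • v 0, p • v 0 + q • V.act (FreeAlgebra.ι K 0) (v 0) +
        r • V.act (FreeAlgebra.ι K 1) (v 0) + b • v 1] := by
  have h : ∀ j, (V.pull (kron K).val).act (kel K a b p q r) v j =
      ∑ i, V.act (kronL K (a, b, p, q, r) i j) (v i) := by
    intro j
    show (LinearMap.pi fun j => ∑ i, V.act ((kron K).val (kel K a b p q r) i j) ∘ₗ
      LinearMap.proj i) v j = _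
    simp only [LinearMap.pi_apply, LinearMap.sum_apply, LinearMap.comp_apply,
      LinearMap.proj_apply]
    rfl
  refine funext fun j => ?_
  rw [h, kronL_apply, Fin.sum_univ_two]
  fin_cases j
  · simp [V.act_one]
  · simp [V.act_one]

/-- The vector `(x, 0)`. -/
def vl {V : Type u} [Zero V] (x : V) : Fin 2 → V := ![x, 0]

/-- The vector `(0, x)`. -/
def vr {V : Type u} [Zero V] (x : V) : Fin 2 → V := ![0, x]

theorem vl_add_vr {V : Type u} [AddCommGroup V] (v : Fin 2 → V) : vl (v 0) + vr (v 1) = v := by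
  ext i
  fin_cases i <;> simp [vl, vr]

theorem vl_add {V : Type u} [AddCommGroup V] (x y : V) : vl (x + y) = vl x + vl y := by
  ext i
  fin_cases i <;> simp [vl]

theorem vr_add {V : Type u} [AddCommGroup V] (x y : V) : vr (x + y) = vr x + vr y := by
  ext i
  fin_cases i <;> simp [vr]

theorem pull_left (V : FdMod K (Fr K)) (v : Fin 2 → V.carrier) :
    (V.pull (kron K).val).act (kel K 1 0 0 0 0) v = vl (v 0) := by
  rw [pull_kel]
  refine funext fun j => ?_
  fin_cases j <;> simp [vl]

theorem pull_right (V : FdMod K (Fr K)) (v : Fin 2 → V.carrier) :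
    (V.pull (kron K).val).act (kel K 0 1 0 0 0) v = vr (v 1) := by
  rw [pull_kel]
  refine funext fun j => ?_
  fin_cases j <;> simp [vr]

theorem pull_shift (V : FdMod K (Fr K)) (x : V.carrier) :
    (V.pull (kron K).val).act (kel K 0 0 1 0 0) (vl x) = vr x := by
  rw [pull_kel]
  refine funext fun j => ?_
  fin_cases j <;> simp [vr, vl]

theorem pull_gen (i : Fin 2) : ∃ w : kron K, ∀ (V : FdMod K (Fr K))
    (x : V.carrier), (V.pull (kron K).val).act w (vl x) = vr (V.act (FreeAlgebra.ι K i) x) := by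
  fin_cases i
  · refine ⟨kel K 0 0 0 1 0, fun V x => ?_⟩
    rw [pull_kel]
    refine funext fun j => ?_
    fin_cases j <;> simp [vr, vl]
  · refine ⟨kel K 0 0 0 0 1, fun V x => ?_⟩
    rw [pull_kel]
    refine funext fun j => ?_
    fin_cases j <;> simp [vr, vl]

theorem pull_indec (V : FdMod K (Fr K)) (hV : V.Indec) : (V.pull (kron K).val).Indec := by
  obtain ⟨hnt, hdec⟩ := hV
  refine ⟨(inferInstance : Nontrivial (Fin 2 → V.carrier)), ?_⟩
  intro A B hA hB hAB
  have hl : ∀ A : Submodule K (V.pull (kron K).val).carrier,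
      (∀ a, ∀ x ∈ A, (V.pull (kron K).val).act a x ∈ A) → ∀ v ∈ A, vl (v 0) ∈ A := by
    intro A hA v hv
    rw [← pull_left]
    exact hA _ v hv
  have hs : ∀ A : Submodule K (V.pull (kron K).val).carrier,
      (∀ a, ∀ x ∈ A, (V.pull (kron K).val).act a x ∈ A) → ∀ x : V.carrier, vl x ∈ A →
        vr x ∈ A := by
    intro A hA x hx
    rw [← pull_shift]
    exact hA _ _ hx
  have hg : ∀ A : Submodule K (V.pull (kron K).val).carrier,
      (∀ a, ∀ x ∈ A, (V.pull (kron K).val).act a x ∈ A) → ∀ (i : Fin 2) (x : V.carrier),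
        vl x ∈ A → vr (V.act (FreeAlgebra.ι K i) x) ∈ A := by
    intro A hA i x hx
    obtain ⟨w, hw⟩ := pull_gen (K := K) i
    rw [← hw]
    exact hA _ _ hx
  let s0 : V.carrier →ₗ[K] (Fin 2 → V.carrier) := LinearMap.single K (fun _ => V.carrier) 0
  have hs0 : ∀ x, s0 x = vl x := by
    intro x
    refine funext fun j => ?_
    fin_cases j <;> simp [s0, vl]
  have hdisj := Submodule.disjoint_def.1 hAB.disjoint
  have hvl0 : ∀ x : V.carrier, (vl x : Fin 2 → V.carrier) = 0 → x = 0 :=
    fun x hx => congrFun hx 0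
  have hvr0 : ∀ x : V.carrier, (vr x : Fin 2 → V.carrier) = 0 → x = 0 :=
    fun x hx => congrFun hx 1
  have hsum : ∀ x : V.carrier, ∃ a b : V.carrier, vl a ∈ A ∧ vl b ∈ B ∧ a + b = x := by
    intro x
    have h1 : ∀ y : (V.pull (kron K).val).carrier, y ∈ A ⊔ B := by
      intro y
      rw [hAB.sup_eq_top]
      exact Submodule.mem_top
    obtain ⟨a, ha, b, hb, hab⟩ := Submodule.mem_sup.1 (h1 (vl x))
    exact ⟨a 0, b 0, hl A hA a ha, hl B hB b hb, congrFun hab 0⟩
  have hcompl : IsCompl ((A : Submodule K (Fin 2 → V.carrier)).comap s0)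
      ((B : Submodule K (Fin 2 → V.carrier)).comap s0) := by
    constructor
    · rw [Submodule.disjoint_def]
      intro x hxA hxB
      rw [Submodule.mem_comap, hs0] at hxA hxB
      exact hvl0 x (hdisj _ hxA hxB)
    · rw [codisjoint_iff_le_sup]
      intro x _
      obtain ⟨a, b, ha, hb, rfl⟩ := hsum x
      apply Submodule.add_mem_sup
      · rw [Submodule.mem_comap, hs0]
        exact ha
      · rw [Submodule.mem_comap, hs0]
        exact hb
  have hstab : ∀ A B : Submodule K (V.pull (kron K).val).carrier,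
      (∀ a, ∀ x ∈ A, (V.pull (kron K).val).act a x ∈ A) →
      (∀ a, ∀ x ∈ B, (V.pull (kron K).val).act a x ∈ B) →
      (∀ x ∈ A, x ∈ B → x = 0) →
      (∀ x : V.carrier, ∃ a b : V.carrier, vl a ∈ A ∧ vl b ∈ B ∧ a + b = x) →
      ∀ a, ∀ x ∈ (A : Submodule K (Fin 2 → V.carrier)).comap s0,
        V.act a x ∈ (A : Submodule K (Fin 2 → V.carrier)).comap s0 := by
    intro A B hA hB hd hsum
    apply FdMod.stable_of_gen
    intro i x hx
    rw [Submodule.mem_comap, hs0] at hx ⊢
    obtain ⟨a, b, ha, hb, hab⟩ := hsum (V.act (FreeAlgebra.ι K i) x)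
    have h1 := hg A hA i x hx
    rw [← hab, vr_add] at h1
    have h2 := hs A hA a ha
    have h3 := hs B hB b hb
    have h4 : (vr b : (V.pull (kron K).val).carrier) ∈ A := by
      have h5 := A.sub_mem h1 h2
      have h6 : (vr a + vr b - vr a : Fin 2 → V.carrier) = vr b := add_sub_cancel_left _ _
      exact h6 ▸ h5
    have h5 : b = 0 := hvr0 b (hd _ h4 h3)
    rw [← hab, h5, add_zero]
    exact ha
  have hbot : ∀ A B : Submodule K (V.pull (kron K).val).carrier,
      (∀ a, ∀ x ∈ B, (V.pull (kron K).val).act a x ∈ B) →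
      (∀ x ∈ A, x ∈ B → x = 0) →
      (∀ x : V.carrier, ∃ a b : V.carrier, vl a ∈ A ∧ vl b ∈ B ∧ a + b = x) →
      (A : Submodule K (Fin 2 → V.carrier)).comap s0 = ⊥ → A = ⊥ := by
    intro A B hB hd hsum h0
    have hB0 : ∀ x : V.carrier, vl x ∈ B := by
      intro x
      obtain ⟨a, b, ha, hb, rfl⟩ := hsum x
      have h1 : a ∈ (A : Submodule K (Fin 2 → V.carrier)).comap s0 := by
        rw [Submodule.mem_comap, hs0]
        exact ha
      rw [h0, Submodule.mem_bot] at h1
      rw [h1, zero_add]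
      exact hb
    rw [eq_bot_iff]
    intro v hv
    apply hd v hv
    have h2 := B.add_mem (hB0 (v 0)) (hs B hB _ (hB0 (v 1)))
    have h3 : (vl (v 0) + vr (v 1) : Fin 2 → V.carrier) = v := vl_add_vr v
    exact h3 ▸ h2
  have hdisj' : ∀ x ∈ B, x ∈ A → x = 0 := fun x hx hx' => hdisj x hx' hx
  have hsum' : ∀ x : V.carrier, ∃ a b : V.carrier, vl a ∈ B ∧ vl b ∈ A ∧ a + b = x := by
    intro x
    obtain ⟨a, b, ha, hb, hab⟩ := hsum x
    exact ⟨b, a, hb, ha, by rw [add_comm, hab]⟩
  rcases hdec _ _ (hstab A B hA hB hdisj hsum) (hstab B A hB hA hdisj' hsum') hcompl with h | h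
  · exact Or.inl (hbot A B hB hdisj hsum h)
  · exact Or.inr (hbot B A hA hdisj' hsum' h)

theorem pull_reflect (V V' : FdMod K (Fr K))
    (h : (V.pull (kron K).val).Iso (V'.pull (kron K).val)) : V.Iso V' := by
  obtain ⟨f, hf⟩ := h
  have hf' : ∀ w v, f ((V.pull (kron K).val).act w v) = (V'.pull (kron K).val).act w (f v) := hf
  let F : (Fin 2 → V.carrier) ≃ₗ[K] (Fin 2 → V'.carrier) := f
  let g : V.carrier →ₗ[K] V'.carrier :=
    LinearMap.proj 0 ∘ₗ F.toLinearMap ∘ₗ LinearMap.single K (fun _ => V.carrier) 0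
  have hsingle : ∀ x : V.carrier, LinearMap.single K (fun _ : Fin 2 => V.carrier) 0 x = vl x := by
    intro x
    refine funext fun j => ?_
    fin_cases j <;> simp [vl]
  have hg : ∀ x, g x = F (vl x) 0 := by
    intro x
    simp only [g, LinearMap.comp_apply, hsingle]
    rfl
  have hFl : ∀ x, F (vl x) = vl (g x) := by
    intro x
    have h1 := hf' (kel K 1 0 0 0 0) (vl x)
    rw [pull_left, pull_left] at h1
    rw [hg]
    exact h1
  have hFr : ∀ x, F (vr x) = vr (g x) := by
    intro x
    have h1 := hf' (kel K 0 0 1 0 0) (vl x)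
    rw [pull_shift] at h1
    have h2 : F (vr x) = (V'.pull (kron K).val).act (kel K 0 0 1 0 0) (F (vl x)) := h1
    rw [h2, hFl, pull_shift]
  have hbij : Function.Bijective g := by
    constructor
    · rw [injective_iff_map_eq_zero]
      intro x hx
      have h1 := hFl x
      rw [hx] at h1
      have h2 : (vl (0 : V'.carrier) : Fin 2 → V'.carrier) = 0 := by
        refine funext fun j => ?_
        fin_cases j <;> simp [vl]
      rw [h2] at h1
      have h3 : (vl x : Fin 2 → V.carrier) = 0 := F.map_eq_zero_iff.1 h1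
      exact congrFun h3 0
    · intro y
      obtain ⟨v, hv⟩ := F.surjective (vl y)
      refine ⟨v 0, ?_⟩
      have h1 := hf' (kel K 1 0 0 0 0) v
      rw [pull_left, pull_left] at h1
      have h2 : F (vl (v 0)) = vl ((F v) 0) := h1
      rw [hg, h2, hv]
      rfl
  refine ⟨LinearEquiv.ofBijective g hbij, ?_⟩
  apply FdMod.mem_hom_of_gen
  intro i x
  obtain ⟨w, hw⟩ := pull_gen (K := K) i
  have h1 : F ((V.pull (kron K).val).act w (vl x)) =
      (V'.pull (kron K).val).act w (F (vl x)) := hf' w (vl x)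
  rw [hw V x, hFr, hFl, hw V' (g x)] at h1
  exact congrFun h1 1

theorem kron_isDrozdWild : IsDrozdWild K (kron K) :=
  ⟨kron_finite K, 2, (kron K).val, pull_indec, pull_reflect⟩

end Pull

end Pool.Agent.Lib.FcWild
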