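import Pool.Agent.Lib.FcWild.Rich

/-!
Over a rich coalgebra every short exact sequence of comodules whose ends are finitely
copresented splits.
-/

universe u

open scoped TensorProduct

namespace Pool.Agent.Lib.FcWild

open LComod

variable {K C : Type u} [Field K] [AddCommGroup C] [Module K C] [Coalgebra K C]

theorem exists_factor {V W : Type u} [AddCommGroup V] [Module K V] [AddCommGroup W] [Module K W]
    (T : V →ₗ[K] W) (m : V →ₗ[K] K) (h : LinearMap.ker T ≤ LinearMap.ker m) :
    ∃ l : W →ₗ[K] K, ∀ v, l (T v) = m v := by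
  have h1 : m ∈ (LinearMap.ker T).dualAnnihilator := by
    rw [Submodule.mem_dualAnnihilator]
    intro w hw
    exact h hw
  rw [← LinearMap.range_dualMap_eq_dualAnnihilator_ker] at h1
  obtain ⟨l, hl⟩ := h1
  exact ⟨l, fun v => LinearMap.congr_fun hl v⟩

namespace Rich

variable (R : Rich K C)

/-- The part of a comodule fixed by the idempotent `e j` is a subcomodule. -/
theorem isSub_fixed (j : ℕ) (X : LComod K C) :
    X.IsSub (LinearMap.eqLocus (X.act (R.e j)) LinearMap.id) := by
  rw [isSub_iff]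
  intro k x hx
  have hx' : X.act (R.e j) x = x := hx
  show X.act (R.e j) (X.act k x) = X.act k x
  have h1 : X.act k x = X.act (k ∘ₗ ract (R.e j)) x := by
    rw [← act_act, hx']
  rw [h1, act_act]
  have h2 : R.e j ∘ₗ ract (k ∘ₗ ract (R.e j)) = k ∘ₗ ract (R.e j) := by
    ext c
    rw [LinearMap.comp_apply, LinearMap.comp_apply, ← ract_ract,
      R.e_eq j _ (R.ract_mem j k _ (R.ract_e_mem j c)), counit_ract]
  rw [h2]

/-- The realisation of a finite-dimensional subcomodule by a new vertex. -/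
theorem realise (j : ℕ) (X : LComod K C) (Y : Submodule K X.carrier) (hY : X.IsSub Y)
    (hfin : Module.Finite K Y) (he : ∀ y ∈ Y, X.act (R.e j) y = y) :
    ∃ (d : ℕ) (b : Module.Basis (Fin d) K Y) (ξ : Fin d → X.carrier →ₗ[K] K) (ν : Fin d → C)
      (κ : Fin d → C →ₗ[K] K),
      (∀ x : Y, ∀ i, ξ i x = b.repr x i) ∧
      (∀ i l, κ i (ν l) = if i = l then 1 else 0) ∧
      (∀ i x, ract (κ i) x = ∑ l, κ l x • X.coef (ξ l) (b i)) ∧
      (∀ (i : Fin d) (k : C →ₗ[K] K), R.e j (ract k (ν i)) = k (ν i)) ∧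
      (∀ (i : Fin d) (k : C →ₗ[K] K), ract (R.e j) (ract k (ν i)) =
        ∑ l, k (ν l) • X.coef (ξ i) (b l)) := by
  obtain ⟨p, hp⟩ := Y.subtype.exists_leftInverse_of_injective (Submodule.ker_subtype Y)
  let b := Module.finBasis K Y
  let ξ : Fin (Module.finrank K Y) → X.carrier →ₗ[K] K := fun i => b.coord i ∘ₗ p
  have hξ : ∀ x : Y, ∀ i, ξ i x = b.repr x i := by
    intro x i
    have : p x = x := LinearMap.congr_fun hp x
    simp only [ξ, LinearMap.comp_apply, this, Module.Basis.coord_apply]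
  have hact : ∀ (k : C →ₗ[K] K) (i : Fin (Module.finrank K Y)),
      X.act k (b i) = ∑ l, k (X.coef (ξ l) (b i)) • (b l : X.carrier) := by
    intro k i
    have hmem : X.act k (b i) ∈ Y := (isSub_iff Y).1 hY k _ (b i).2
    have h1 := b.sum_repr ⟨X.act k (b i), hmem⟩
    have h2 := congrArg Subtype.val h1
    simp only [Submodule.coe_sum, Submodule.coe_smul] at h2
    rw [← h2]
    apply Finset.sum_congr rfl
    intro l _
    rw [apply_coef, ← hξ]
  have hB : ∀ i l, X.coef (ξ l) (b i) ∈ R.B j := by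
    intro i l
    rw [← he _ (b i).2, coef_act]
    exact R.ract_e_mem j _
  have hcom : ∀ i k, Coalgebra.comul (R := K) (X.coef (ξ k) (b i)) =
      ∑ l, X.coef (ξ l) (b i) ⊗ₜ[K] X.coef (ξ k) (b l) := by
    intro i k
    apply slice_ext
    intro f
    rw [← ract_apply, ← coef_act, hact, map_sum, map_sum]
    apply Finset.sum_congr rfl
    intro l _
    rw [slice_tmul, map_smul]
  have hcou : ∀ i k, Coalgebra.counit (R := K) (X.coef (ξ k) (b i)) = if i = k then 1 else 0 := by
    intro i k
    rw [counit_coef, hξ, b.repr_self, Finsupp.single_apply]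
  obtain ⟨g, ν, κ, h1, h2, h3, h4, h5, h6, h7⟩ := R.vertex j _
    (fun i k => X.coef (ξ k) (b i)) hB hcom hcou
  have hν : ∀ (i) (k : C →ₗ[K] K), ract k (ν i) =
      k g • ν i + ∑ l, k (ν l) • X.coef (ξ i) (b l) := by
    intro i k
    rw [ract_apply, h1, map_add, slice_tmul, map_sum]
    simp only [slice_tmul]
  refine ⟨_, b, ξ, ν, κ, hξ, h2, h3, ?_, ?_⟩
  · intro i k
    rw [hν, map_add, map_smul, h4, smul_zero, zero_add, map_sum, Finset.sum_eq_single i]
    · rw [map_smul, R.e_eq j _ (hB _ _), hcou, if_pos rfl, smul_eq_mul, mul_one]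
    · intro l _ hl
      rw [map_smul, R.e_eq j _ (hB _ _), hcou, if_neg hl, smul_zero]
    · intro h
      exact absurd (Finset.mem_univ i) h
  · intro i k
    have h0 : ract (R.e j) (ν i) = 0 := by
      rw [hν, h5, zero_smul, zero_add]
      apply Finset.sum_eq_zero
      intro l _
      rw [h4, zero_smul]
    rw [hν, map_add, map_smul, h0, smul_zero, zero_add, map_sum]
    apply Finset.sum_congr rfl
    intro l _
    rw [map_smul, R.ract_e j _ (hB _ _)]

include R

/-- The lifting property of finitely copresented comodules over a rich coalgebra. -/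
theorem lift {X E₁ E₂ : LComod K C} (hX : X.IsFinCopres) (hE₁ : E₁.IsSocleFiniteInjective)
    (hE₂ : E₂.IsSocleFiniteInjective) (f : E₁.hom E₂) (h : X.hom E₂)
    (hfh : ∀ x, ∃ z, f.1 z = h.1 x) : ∃ u : X.hom E₁, ∀ x, f.1 (u.1 x) = h.1 x := by
  obtain ⟨j₁, H₁⟩ := R.embed E₁ hE₁
  obtain ⟨j₂, H₂⟩ := R.embed E₂ hE₂
  obtain ⟨j₃, H₃⟩ := R.fcData X hX
  let j := max j₁ (max j₂ j₃)
  obtain ⟨n₁, l₁, σ₁, hl₁, hσ₁⟩ := H₁ j (le_max_left _ _)
  obtain ⟨n₂, l₂, σ₂, hl₂, hσ₂⟩ := H₂ j ((le_max_left _ _).trans (le_max_right _ _))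
  obtain ⟨n, l, hl, hinj, hP⟩ := H₃ j ((le_max_right _ _).trans (le_max_right _ _))
  -- the matrix of `f`
  let a : Fin n₂ → Fin n₁ → C →ₗ[K] K := fun t i =>
    l₂ t ∘ₗ f.1 ∘ₗ σ₁.1 ∘ₗ LinearMap.single K (fun _ : Fin n₁ => C) i
  have ha_sum : ∀ (t : Fin n₂) (v : Fin n₁ → C), l₂ t (f.1 (σ₁.1 v)) = ∑ i, a t i (v i) := by
    intro t v
    have hv : v = ∑ i, LinearMap.single K (fun _ : Fin n₁ => C) i (v i) := by
      ext s
      rw [Finset.sum_apply, Finset.sum_eq_single s]
      · simp
      · intro i _ hi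
        simp [hi.symm]
      · intro h
        exact absurd (Finset.mem_univ s) h
    exact (congrArg (l₂ t ∘ₗ f.1 ∘ₗ σ₁.1) hv).trans (map_sum (l₂ t ∘ₗ f.1 ∘ₗ σ₁.1) _ _)
  have ha_e : ∀ t i c, a t i (ract (R.e j) c) = a t i c := by
    intro t i c
    have h1 : (powC K C n₁).act (R.e j) (LinearMap.single K (fun _ : Fin n₁ => C) i c) =
        LinearMap.single K (fun _ : Fin n₁ => C) i (ract (R.e j) c) := by
      rw [powC_act]
      refine funext fun s => ?_
      by_cases hs : s = i
      · subst hs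
        simp
      · simp [hs]
    show l₂ t (f.1 (σ₁.1 (LinearMap.single K (fun _ : Fin n₁ => C) i (ract (R.e j) c)))) =
      l₂ t (f.1 (σ₁.1 (LinearMap.single K (fun _ : Fin n₁ => C) i c)))
    rw [← h1, hom_act, hom_act, hl₂]
  let T : (Fin n₂ → X.carrier) →ₗ[K] (Fin n₁ → X.carrier) :=
    LinearMap.pi fun i => ∑ t, X.act (a t i) ∘ₗ LinearMap.proj t
  have hT : ∀ y i, T y i = ∑ t, X.act (a t i) (y t) := by
    intro y i
    simp [T]
  let μ : (Fin n₂ → X.carrier) →ₗ[K] K := ∑ t, l₂ t ∘ₗ h.1 ∘ₗ LinearMap.proj t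
  have hμ : ∀ y, μ y = ∑ t, l₂ t (h.1 (y t)) := by
    intro y
    simp [μ]
  have claim : LinearMap.ker T ≤ LinearMap.ker μ := by
    intro y hy
    rw [LinearMap.mem_ker] at hy ⊢
    let y' : Fin n₂ → X.carrier := fun t => X.act (R.e j) (y t)
    have hy' : ∀ i, ∑ t, X.act (a t i) (y' t) = 0 := by
      intro i
      have h1 : T y i = 0 := congrFun hy i
      rw [hT] at h1
      rw [← h1]
      apply Finset.sum_congr rfl
      intro t _
      have h2 : a t i ∘ₗ ract (R.e j) = a t i := LinearMap.ext fun c => ha_e t i c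
      rw [act_act, h2]
    obtain ⟨Y, hYs, hYA, hYfin, hyY⟩ := exists_fd_sub y' (R.isSub_fixed j X) (fun t => by
      show X.act (R.e j) (X.act (R.e j) (y t)) = X.act (R.e j) (y t)
      exact R.act_e_e j X (y t))
    obtain ⟨d, b, ξ, ν, κ, hξ, hκν, hκ, hν1, hν2⟩ := R.realise j X Y hYs hYfin
      (fun y hy => hYA hy)
    -- coefficients of `l s` on `Y`
    have hcl : ∀ s i, X.coef (l s) (b i) = ∑ m, l s (b m) • X.coef (ξ m) (b i) := by
      intro s i
      apply dual_ext (K := K)
      intro k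
      rw [apply_coef, map_sum]
      have hmem : X.act k (b i) ∈ Y := (isSub_iff Y).1 hYs k _ (b i).2
      have h1 := b.sum_repr ⟨X.act k (b i), hmem⟩
      have h2 := congrArg Subtype.val h1
      simp only [Submodule.coe_sum, Submodule.coe_smul] at h2
      conv_lhs => rw [← h2]
      rw [map_sum]
      apply Finset.sum_congr rfl
      intro m _
      rw [map_smul, map_smul, apply_coef, ← hξ, smul_eq_mul, smul_eq_mul, mul_comm]
    let w : Fin n → C := fun s => ∑ i, l s (b i) • ν i
    obtain ⟨u, hu⟩ := hP w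
      (by
        intro s k
        simp only [w, map_sum, map_smul, hν1])
      (by
        intro k
        refine ⟨∑ i, k (ν i) • (b i : X.carrier), fun s => ?_⟩
        simp only [w, map_sum, map_smul, hν2, hcl, Finset.smul_sum]
        rw [Finset.sum_comm]
        apply Finset.sum_congr rfl
        intro m _
        apply Finset.sum_congr rfl
        intro i _
        rw [smul_comm])
    have hub : ∀ i, X.act (κ i) u = b i := by
      intro i
      apply hinj
      refine funext fun s => ?_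
      rw [toPow_apply, toPow_apply, coef_act, hu, hcl]
      simp only [w, map_sum, map_smul, hκ]
      apply Finset.sum_congr rfl
      intro m _
      rw [Finset.sum_eq_single m]
      · rw [hκν, if_pos rfl, smul_eq_mul, mul_one]
      · intro l' _ hl'
        rw [hκν, if_neg (Ne.symm hl'), smul_zero]
      · intro h
        exact absurd (Finset.mem_univ m) h
    let η : Fin n₂ → Fin d → K := fun t i => b.repr ⟨y' t, hyY t⟩ i
    have hη : ∀ t, y' t = ∑ i, η t i • (b i : X.carrier) := by
      intro t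
      have h1 := b.sum_repr ⟨y' t, hyY t⟩
      have h2 := congrArg Subtype.val h1
      simp only [Submodule.coe_sum, Submodule.coe_smul] at h2
      exact h2.symm
    let r : Fin n₂ → C →ₗ[K] K := fun t => ∑ i, η t i • κ i
    have hru : ∀ t, X.act (r t) u = y' t := by
      intro t
      simp only [r]
      rw [act_sum_left, hη]
      apply Finset.sum_congr rfl
      intro i _
      rw [act_smul_left, hub]
    have hract : ∀ t x, ract (r t) x = ∑ m, κ m x • X.coef (ξ m) (y' t) := by
      intro t x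
      have h1 : ract (r t) x = ∑ i, η t i • ract (κ i) x := by
        have h0 : ract (r t) x = (regular K C).act (r t) x := rfl
        rw [h0]
        simp only [r]
        rw [act_sum_left]
        simp only [act_smul_left]
        rfl
      have h2 : ∀ m, X.coef (ξ m) (y' t) = ∑ i, η t i • X.coef (ξ m) (b i) := by
        intro m
        rw [hη, map_sum]
        simp only [map_smul]
      rw [h1]
      simp only [hκ, h2, Finset.smul_sum]
      rw [Finset.sum_comm]
      apply Finset.sum_congr rfl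
      intro m _
      apply Finset.sum_congr rfl
      intro i _
      rw [smul_comm]
    have hA : ∀ i x, ∑ t, a t i (ract (r t) x) = 0 := by
      intro i x
      simp only [hract, map_sum, map_smul, apply_coef]
      rw [Finset.sum_comm]
      apply Finset.sum_eq_zero
      intro m _
      rw [← Finset.smul_sum, ← map_sum, hy' i, map_zero, smul_zero]
    obtain ⟨z, hz⟩ := hfh u
    rw [hμ]
    have h1 : ∀ t, l₂ t (h.1 (y t)) = ∑ i, a t i (ract (r t) ((E₁.toPow l₁).1 z i)) := by
      intro t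
      rw [← hl₂, ← hom_act]
      show l₂ t (h.1 (y' t)) = _
      have h2 : (fun i => ract (r t) ((E₁.toPow l₁).1 z i)) =
          (powC K C n₁).act (r t) ((E₁.toPow l₁).1 z) := (powC_act _ _ _).symm
      rw [← hru, hom_act, ← hz, ← hom_act]
      conv_lhs => rw [← hσ₁ z]
      rw [← hom_act, ← ha_sum, h2]
    simp only [h1]
    rw [Finset.sum_comm]
    apply Finset.sum_eq_zero
    intro i _
    exact hA i _
  obtain ⟨lam, hlam⟩ := exists_factor T μ claim
  let li : Fin n₁ → X.carrier →ₗ[K] K := fun i =>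
    lam ∘ₗ LinearMap.single K (fun _ : Fin n₁ => X.carrier) i
  have hli : ∀ t x, ∑ i, li i (X.act (a t i) x) = l₂ t (h.1 x) := by
    intro t x
    have h1 := hlam (LinearMap.single K (fun _ : Fin n₂ => X.carrier) t x)
    have h2 : μ (LinearMap.single K (fun _ : Fin n₂ => X.carrier) t x) = l₂ t (h.1 x) := by
      rw [hμ, Finset.sum_eq_single t]
      · simp
      · intro s _ hs
        simp [hs]
      · intro h
        exact absurd (Finset.mem_univ t) h
    have h3 : T (LinearMap.single K (fun _ : Fin n₂ => X.carrier) t x) =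
        ∑ i, LinearMap.single K (fun _ : Fin n₁ => X.carrier) i (X.act (a t i) x) := by
      ext s
      rw [hT, Finset.sum_eq_single t]
      · rw [Finset.sum_apply, Finset.sum_eq_single s]
        · simp
        · intro i _ hi
          simp [hi.symm]
        · intro h
          exact absurd (Finset.mem_univ s) h
      · intro t' _ ht'
        simp [ht']
      · intro h
        exact absurd (Finset.mem_univ t) h
    rw [h2, h3, map_sum] at h1
    exact h1
  refine ⟨compHom σ₁ (X.toPow li), ?_⟩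
  have hmain : ∀ t x, l₂ t (f.1 ((compHom σ₁ (X.toPow li)).1 x)) = l₂ t (h.1 x) := by
    intro t x
    show l₂ t (f.1 (σ₁.1 ((X.toPow li).1 x))) = _
    rw [ha_sum, ← hli]
    apply Finset.sum_congr rfl
    intro i _
    rw [toPow_apply, apply_coef]
  intro x
  have hinj₂ : Function.Injective (E₂.toPow l₂).1 := by
    intro x y hxy
    rw [← hσ₂ x, ← hσ₂ y, hxy]
  apply hinj₂
  refine funext fun t => ?_
  rw [toPow_apply, toPow_apply]
  apply dual_ext (K := K)
  intro k
  rw [apply_coef, apply_coef, ← hom_act, ← hom_act, ← hom_act, hmain]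

/-- Every short exact sequence with finitely copresented ends splits. -/
theorem splits {X' X X'' : LComod K C} (hX' : X'.IsFinCopres) (hX'' : X''.IsFinCopres)
    (α : X'.hom X) (β : X.hom X'') (hs : IsShortExact α.1 β.1) :
    ∃ p : X.hom X', ∀ x, p.1 (α.1 x) = x := by
  obtain ⟨hα, hαβ, hβ⟩ := hs
  obtain ⟨E₁, E₂, q, f, hE₁, hE₂, hq, hqf⟩ := hX'
  obtain ⟨qt, hqt⟩ := hE₁.1 X' X α q hα
  have hqt' : ∀ x, qt.1 (α.1 x) = q.1 x := fun x => LinearMap.congr_fun hqt x
  -- the induced homomorphism `X'' → E₂`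
  have hker : ∀ x, β.1 x = 0 → f.1 (qt.1 x) = 0 := by
    intro x hx
    have hx' : x ∈ LinearMap.range α.1 := by
      rw [hαβ]
      exact hx
    obtain ⟨x', rfl⟩ := hx'
    rw [hqt']
    have : q.1 x' ∈ LinearMap.ker f.1 := hqf ▸ LinearMap.mem_range_self q.1 x'
    exact this
  let βq : (X.carrier ⧸ LinearMap.ker β.1) ≃ₗ[K] X''.carrier :=
    β.1.quotKerEquivOfSurjective hβ
  let hl : X''.carrier →ₗ[K] E₂.carrier :=
    (LinearMap.ker β.1).liftQ (f.1 ∘ₗ qt.1) (fun x hx => hker x hx) ∘ₗ βq.symm.toLinearMap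
  have hhl : ∀ x, hl (β.1 x) = f.1 (qt.1 x) := by
    intro x
    have h1 : βq.symm (β.1 x) = Submodule.Quotient.mk x := by
      rw [LinearEquiv.symm_apply_eq]
      rfl
    simp only [hl, LinearMap.comp_apply, LinearEquiv.coe_coe, h1]
    rfl
  let h : X''.hom E₂ := mkHom hl (by
    intro k x
    obtain ⟨x, rfl⟩ := hβ x
    rw [← hom_act, hhl, hhl, hom_act, hom_act])
  obtain ⟨u, hu⟩ := R.lift hX'' hE₁ hE₂ f h (by
    intro x
    obtain ⟨x, rfl⟩ := hβ x
    exact ⟨qt.1 x, (hhl x).symm⟩)
  -- the corrected map lands in the image of `q`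
  have hmem : ∀ x, qt.1 x - u.1 (β.1 x) ∈ LinearMap.range q.1 := by
    intro x
    rw [hqf, LinearMap.mem_ker, map_sub, hu]
    show f.1 (qt.1 x) - hl (β.1 x) = 0
    rw [hhl, sub_self]
  let qe : X'.carrier ≃ₗ[K] LinearMap.range q.1 := LinearEquiv.ofInjective q.1 hq
  let pl : X.carrier →ₗ[K] X'.carrier :=
    qe.symm.toLinearMap ∘ₗ LinearMap.codRestrict (LinearMap.range q.1)
      (qt.1 - u.1 ∘ₗ β.1) hmem
  have hpl : ∀ x, q.1 (pl x) = qt.1 x - u.1 (β.1 x) := by
    intro x
    have h1 : ((qe (pl x) : LinearMap.range q.1) : E₁.carrier) = qt.1 x - u.1 (β.1 x) := by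
      simp only [pl, LinearMap.comp_apply, LinearEquiv.coe_coe, LinearEquiv.apply_symm_apply]
      rfl
    rw [← h1]
    rfl
  refine ⟨mkHom pl ?_, ?_⟩
  · intro k x
    apply hq
    rw [hpl, hom_act q, hpl, map_sub, hom_act qt, hom_act β, hom_act u]
  · intro x
    apply hq
    show q.1 (pl (α.1 x)) = q.1 x
    rw [hpl, hqt']
    have h0 : β.1 (α.1 x) = 0 := by
      have : α.1 x ∈ LinearMap.ker β.1 := hαβ ▸ LinearMap.mem_range_self α.1 x
      exact this
    rw [h0, map_zero, sub_zero]

end Rich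

end Pool.Agent.Lib.FcWild
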