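import Pool.Agent.Lib.FcWild.Socle

/-!
Rich coalgebras: coalgebras with an exhaustive filtration by subcoalgebras `B j`, cut out by
idempotent functionals `e j`, such that every matrix comodule over `B j` is realised by a new
vertex. Embedding data for socle-finite injective comodules and finitely copresented comodules.
-/

universe u

open scoped TensorProduct

namespace Pool.Agent.Lib.FcWild

open LComod

/-- The structure on a coalgebra used in the construction. -/
structure Rich (K C : Type u) [Field K] [AddCommGroup C] [Module K C] [Coalgebra K C] where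
  B : ℕ → Submodule K C
  e : ℕ → (C →ₗ[K] K)
  mono : Monotone B
  exh : ∀ c, ∃ j, c ∈ B j
  e_eq : ∀ j, ∀ c ∈ B j, e j c = Coalgebra.counit (R := K) c
  ract_e_mem : ∀ j c, ract (e j) c ∈ B j
  ract_mem : ∀ (j : ℕ) (k : C →ₗ[K] K), ∀ c ∈ B j, ract k c ∈ B j
  ract_e : ∀ j, ∀ c ∈ B j, ract (e j) c = c
  vertex : ∀ (j d : ℕ) (c : Fin d → Fin d → C), (∀ i k, c i k ∈ B j) →
    (∀ i k, Coalgebra.comul (R := K) (c i k) = ∑ l, c i l ⊗ₜ[K] c l k) →
    (∀ i k, Coalgebra.counit (R := K) (c i k) = if i = k then 1 else 0) →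
    ∃ (g : C) (ν : Fin d → C) (κ : Fin d → C →ₗ[K] K),
      (∀ i, Coalgebra.comul (R := K) (ν i) = g ⊗ₜ[K] ν i + ∑ l, ν l ⊗ₜ[K] c l i) ∧
      (∀ i l, κ i (ν l) = if i = l then 1 else 0) ∧
      (∀ i x, ract (κ i) x = ∑ l, κ l x • c i l) ∧
      (∀ i, e j (ν i) = 0) ∧ e j g = 0 ∧
      Coalgebra.comul (R := K) g = g ⊗ₜ[K] g ∧ Coalgebra.counit (R := K) g = 1

namespace Rich

variable {K C : Type u} [Field K] [AddCommGroup C] [Module K C] [Coalgebra K C]
variable (R : Rich K C)

theorem e_ract_e (j : ℕ) (c : C) : R.e j (ract (R.e j) c) = R.e j c := by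
  rw [R.e_eq j _ (R.ract_e_mem j c), counit_ract]

theorem e_comp (j : ℕ) : R.e j ∘ₗ ract (R.e j) = R.e j := by
  ext c
  exact R.e_ract_e j c

theorem act_e_e (j : ℕ) (X : LComod K C) (x : X.carrier) :
    X.act (R.e j) (X.act (R.e j) x) = X.act (R.e j) x := by
  rw [act_act, e_comp]

theorem exists_level (X : LComod K C) (x : X.carrier) :
    ∃ j₀, ∀ j ≥ j₀, X.act (R.e j) x = x := by
  classical
  obtain ⟨T, hT⟩ := TensorProduct.exists_finset (R := K) (X.coact x)
  choose lev hlev using R.exh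
  refine ⟨T.sup fun p => lev p.1, fun j hj => ?_⟩
  have h : X.act (R.e j) x = X.act (Coalgebra.counit (R := K) (A := C)) x := by
    rw [act_apply, act_apply, hT, map_sum, map_sum]
    apply Finset.sum_congr rfl
    intro p hp
    rw [slice_tmul, slice_tmul, R.e_eq]
    apply R.mono _ (hlev p.1)
    exact (Finset.le_sup (f := fun p : C × X.carrier => lev p.1) hp).trans hj
  rw [h, act_counit]

theorem exists_level_fg (X : LComod K C) (S : Submodule K X.carrier) (hS : Module.Finite K S) :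
    ∃ j₀, ∀ j ≥ j₀, ∀ s ∈ S, X.act (R.e j) s = s := by
  classical
  obtain ⟨T, hT⟩ := (Submodule.fg_iff_finiteDimensional S).2 hS
  choose lev hlev using fun x => R.exists_level X x
  refine ⟨T.sup lev, fun j hj s hs => ?_⟩
  have hle : S ≤ LinearMap.eqLocus (X.act (R.e j)) LinearMap.id := by
    rw [← hT, Submodule.span_le]
    intro x hx
    exact hlev x j ((Finset.le_sup (f := lev) hx).trans hj)
  exact hle hs

/-- Embedding data for a socle-finite injective comodule. -/
theorem embed (E : LComod K C) (hE : E.IsSocleFiniteInjective) :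
    ∃ j₀, ∀ j ≥ j₀, ∃ (n : ℕ) (l : Fin n → E.carrier →ₗ[K] K) (σ : (powC K C n).hom E),
      (∀ i x, l i (E.act (R.e j) x) = l i x) ∧ ∀ x, σ.1 ((E.toPow l).1 x) = x := by
  obtain ⟨hinj, hfin⟩ := hE
  obtain ⟨j₀, hj₀⟩ := R.exists_level_fg E E.socle hfin
  refine ⟨j₀, fun j hj => ?_⟩
  obtain ⟨p, hp⟩ := E.socle.subtype.exists_leftInverse_of_injective
    (Submodule.ker_subtype E.socle)
  let b := Module.finBasis K E.socle
  let l : Fin (Module.finrank K E.socle) → E.carrier →ₗ[K] K :=
    fun i => b.coord i ∘ₗ p ∘ₗ E.act (R.e j)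
  have hl : ∀ i x, l i (E.act (R.e j) x) = l i x := by
    intro i x
    simp only [l, LinearMap.comp_apply, R.act_e_e]
  have hpow : Function.Injective (E.toPow l).1 := by
    apply injective_of_socle
    intro s hs h0
    have h1 : ∀ i, l i s = 0 := by
      intro i
      rw [← counit_coef E (l i) s, ← toPow_apply, h0]
      exact map_zero _
    have h2 : p s = 0 := by
      apply b.repr.injective
      rw [map_zero]
      ext i
      have := h1 i
      simp only [l, LinearMap.comp_apply, hj₀ j hj s hs] at this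
      simpa using this
    have h3 : p s = (⟨s, hs⟩ : E.socle) := LinearMap.congr_fun hp ⟨s, hs⟩
    rw [h2] at h3
    exact (congrArg Subtype.val h3).symm
  obtain ⟨σ, hσ⟩ := hinj E (powC K C _) (E.toPow l) E.idHom hpow
  exact ⟨_, l, σ, hl, fun x => LinearMap.congr_fun hσ x⟩

/-- Embedding data for a finitely copresented comodule. -/
theorem fcData (X : LComod K C) (hX : X.IsFinCopres) :
    ∃ j₀, ∀ j ≥ j₀, ∃ (n : ℕ) (l : Fin n → X.carrier →ₗ[K] K),
      (∀ i x, l i (X.act (R.e j) x) = l i x) ∧ Function.Injective (X.toPow l).1 ∧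
      ∀ w : Fin n → C, (∀ i (k : C →ₗ[K] K), R.e j (ract k (w i)) = k (w i)) →
        (∀ k : C →ₗ[K] K, ∃ x, ∀ i, X.coef (l i) x = ract (R.e j) (ract k (w i))) →
        ∃ x, ∀ i, X.coef (l i) x = w i := by
  obtain ⟨E₁, E₂, q, d, hE₁, hE₂, hq, hqd⟩ := hX
  obtain ⟨j₁, h₁⟩ := R.embed E₁ hE₁
  obtain ⟨j₂, h₂⟩ := R.embed E₂ hE₂
  refine ⟨max j₁ j₂, fun j hj => ?_⟩
  obtain ⟨n, l, σ, hl, hσ⟩ := h₁ j ((le_max_left _ _).trans hj)
  obtain ⟨n', l', σ', hl', hσ'⟩ := h₂ j ((le_max_right _ _).trans hj)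
  have hcoef : ∀ i x, X.coef (l i ∘ₗ q.1) x = E₁.coef (l i) (q.1 x) := by
    intro i x
    apply dual_ext (K := K)
    intro k
    rw [apply_coef, apply_coef, LinearMap.comp_apply, hom_act]
  have hpow : ∀ x, (X.toPow fun i => l i ∘ₗ q.1).1 x = (E₁.toPow l).1 (q.1 x) := by
    intro x
    exact funext fun i => hcoef i x
  refine ⟨n, fun i => l i ∘ₗ q.1, ?_, ?_, ?_⟩
  · intro i x
    simp only [LinearMap.comp_apply]
    rw [hom_act, hl]
  · intro x y hxy
    rw [hpow, hpow] at hxy
    apply hq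
    rw [← hσ (q.1 x), ← hσ (q.1 y), hxy]
  · intro w hw hk
    -- functionals of `σ (w · k)`
    have hcut : ∀ k : C →ₗ[K] K, ∃ x, E₁.act (R.e j) (E₁.act k (σ.1 w)) = q.1 x := by
      intro k
      obtain ⟨x, hx⟩ := hk k
      refine ⟨x, ?_⟩
      rw [← hom_act, ← hom_act]
      have : (powC K C n).act (R.e j) ((powC K C n).act k w) =
          (E₁.toPow l).1 (q.1 x) := by
        rw [powC_act, powC_act]
        refine funext fun i => ?_
        rw [toPow_apply, ← hcoef, hx i]
      rw [this, hσ]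
    have hd : d.1 (σ.1 w) = 0 := by
      have hinj : Function.Injective (E₂.toPow l').1 := by
        intro x y hxy
        rw [← hσ' x, ← hσ' y, hxy]
      apply hinj
      rw [map_zero]
      refine funext fun i => ?_
      rw [toPow_apply]
      apply dual_sep (K := K)
      intro k
      rw [apply_coef, ← hl', ← hom_act, ← hom_act]
      obtain ⟨x, hx⟩ := hcut k
      rw [hx]
      have : q.1 x ∈ LinearMap.ker d.1 := hqd ▸ LinearMap.mem_range_self q.1 x
      rw [LinearMap.mem_ker.1 this, map_zero]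
    have hmem : σ.1 w ∈ LinearMap.range q.1 := by
      rw [hqd]
      exact hd
    obtain ⟨x, hx⟩ := hmem
    refine ⟨x, fun i => ?_⟩
    rw [hcoef, hx]
    apply dual_ext (K := K)
    intro k
    rw [apply_coef, ← hl]
    obtain ⟨y, hy⟩ := hk k
    have h1 : (powC K C n).act (R.e j) ((powC K C n).act k w) =
          (E₁.toPow l).1 (q.1 y) := by
      rw [powC_act, powC_act]
      refine funext fun i => ?_
      rw [toPow_apply, ← hcoef, hy i]
    rw [← hom_act, ← hom_act, h1, hσ, ← counit_coef E₁ (l i) (q.1 y), ← hcoef, hy i,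
      counit_ract, hw]

end Rich

end Pool.Agent.Lib.FcWild
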