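import Pool.Agent.Lib.FcWild.Basic

/-!
Local finiteness of comodules, existence of simple subcomodules, and injectivity of
homomorphisms tested on the socle.
-/

universe u

open scoped TensorProduct

namespace Pool.Agent.Lib.FcWild

namespace LComod

variable {K C : Type u} [Field K] [AddCommGroup C] [Module K C] [Coalgebra K C]

/-- The subcomodule generated by an element. -/
noncomputable def gen (X : LComod K C) (x : X.carrier) : Submodule K X.carrier :=
  LinearMap.range (X.actL x)

theorem self_mem_gen (X : LComod K C) (x : X.carrier) : x ∈ X.gen x :=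
  ⟨Coalgebra.counit, X.act_counit x⟩

theorem isSub_gen (X : LComod K C) (x : X.carrier) : X.IsSub (X.gen x) := by
  rw [isSub_iff]
  rintro f _ ⟨g, rfl⟩
  exact ⟨f ∘ₗ ract g, (X.act_act g f x).symm⟩

theorem gen_finite (X : LComod K C) (x : X.carrier) : Module.Finite K (X.gen x) := by
  classical
  obtain ⟨T, hT⟩ := TensorProduct.exists_finset (R := K) (X.coact x)
  have hle : X.gen x ≤ Submodule.span K ((T.image Prod.snd : Finset X.carrier) : Set X.carrier) := by
    rintro _ ⟨f, rfl⟩
    rw [actL_apply, act_apply, hT, map_sum]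
    apply Submodule.sum_mem
    intro p hp
    rw [slice_tmul]
    apply Submodule.smul_mem
    apply Submodule.subset_span
    simp only [Finset.coe_image, Set.mem_image, Finset.mem_coe]
    exact ⟨p, hp, rfl⟩
  have : FiniteDimensional K (Submodule.span K
      ((T.image Prod.snd : Finset X.carrier) : Set X.carrier)) :=
    FiniteDimensional.span_finset K _
  exact Submodule.finiteDimensional_of_le hle

theorem gen_le {X : LComod K C} {A : Submodule K X.carrier} (hA : X.IsSub A) {x : X.carrier}
    (hx : x ∈ A) : X.gen x ≤ A := by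
  rintro _ ⟨f, rfl⟩
  exact (isSub_iff A).1 hA f x hx

theorem isSub_iSup {ι : Type*} {X : LComod K C} (A : ι → Submodule K X.carrier)
    (hA : ∀ i, X.IsSub (A i)) : X.IsSub (⨆ i, A i) := by
  rw [isSub_iff]
  intro f x hx
  have h : (⨆ i, A i) ≤ (⨆ i, A i).comap (X.act f) := by
    apply iSup_le
    intro i y hy
    exact Submodule.mem_iSup_of_mem i ((isSub_iff _).1 (hA i) f y hy)
  exact h hx

theorem exists_fd_sub {X : LComod K C} {m : ℕ} (y : Fin m → X.carrier)
    {A : Submodule K X.carrier} (hA : X.IsSub A) (hy : ∀ t, y t ∈ A) :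
    ∃ Y : Submodule K X.carrier, X.IsSub Y ∧ Y ≤ A ∧ Module.Finite K Y ∧ ∀ t, y t ∈ Y := by
  refine ⟨⨆ t, X.gen (y t), isSub_iSup _ fun t => X.isSub_gen _, iSup_le fun t =>
    gen_le hA (hy t), ?_, fun t => Submodule.mem_iSup_of_mem t (X.self_mem_gen _)⟩
  have := fun t => X.gen_finite (y t)
  exact Submodule.finiteDimensional_iSup _

theorem exists_simple_aux (X : LComod K C) : ∀ (n : ℕ) (A : Submodule K X.carrier),
    Module.Finite K A → Module.finrank K A = n → X.IsSub A → A ≠ ⊥ →
      ∃ S ≤ A, X.IsSimpleSub S := by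
  intro n
  induction n using Nat.strong_induction_on with
  | _ n ih =>
    intro A hfin hn hA hA0
    by_cases hs : X.IsSimpleSub A
    · exact ⟨A, le_rfl, hs⟩
    · have : ∃ B ≤ A, X.IsSub B ∧ B ≠ ⊥ ∧ B ≠ A := by
        by_contra hcon
        apply hs
        refine ⟨hA, hA0, fun B hB hBs => ?_⟩
        by_contra h
        push Not at h
        exact hcon ⟨B, hB, hBs, h.1, h.2⟩
      obtain ⟨B, hBA, hBs, hB0, hBne⟩ := this
      have hlt : Module.finrank K B < Module.finrank K A :=
        Submodule.finrank_lt_finrank_of_lt (lt_of_le_of_ne hBA hBne)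
      have hBfin : Module.Finite K B := Submodule.finiteDimensional_of_le hBA
      obtain ⟨S, hS, hSs⟩ := ih _ (hn ▸ hlt) B hBfin rfl hBs hB0
      exact ⟨S, hS.trans hBA, hSs⟩

theorem exists_simple {X : LComod K C} {A : Submodule K X.carrier} (hA : X.IsSub A)
    (hA0 : A ≠ ⊥) : ∃ S ≤ A, X.IsSimpleSub S := by
  obtain ⟨x, hx, hx0⟩ := Submodule.exists_mem_ne_zero_of_ne_bot hA0
  have hg0 : X.gen x ≠ ⊥ := by
    intro h
    have := X.self_mem_gen x
    rw [h, Submodule.mem_bot] at this
    exact hx0 this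
  obtain ⟨S, hS, hSs⟩ := X.exists_simple_aux _ (X.gen x) (X.gen_finite x) rfl (X.isSub_gen x) hg0
  exact ⟨S, hS.trans (gen_le hA hx), hSs⟩

theorem isSub_ker {X Y : LComod K C} (φ : X.hom Y) : X.IsSub (LinearMap.ker φ.1) := by
  rw [isSub_iff]
  intro f x hx
  rw [LinearMap.mem_ker] at hx ⊢
  rw [hom_act, hx, map_zero]

theorem injective_of_socle {X Y : LComod K C} (φ : X.hom Y)
    (h : ∀ s ∈ X.socle, φ.1 s = 0 → s = 0) : Function.Injective φ.1 := by
  rw [← LinearMap.ker_eq_bot]
  by_contra hne
  obtain ⟨S, hS, hSs⟩ := exists_simple (isSub_ker φ) hne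
  apply hSs.2.1
  rw [eq_bot_iff]
  intro s hs
  have h1 : s ∈ X.socle := (le_sSup (a := S) (s := {A | X.IsSimpleSub A}) hSs) hs
  exact h s h1 (hS hs)

theorem finite_of_isSimple {X : LComod K C} (hX : X.IsSimple) : Module.Finite K X.carrier := by
  obtain ⟨x, hx, hx0⟩ := Submodule.exists_mem_ne_zero_of_ne_bot hX.2.1
  rcases hX.2.2 (X.gen x) le_top (X.isSub_gen x) with h | h
  · exfalso
    have := X.self_mem_gen x
    rw [h, Submodule.mem_bot] at this
    exact hx0 this
  · have := X.gen_finite x
    rw [h] at this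
    exact Module.Finite.equiv (Submodule.topEquiv : (⊤ : Submodule K X.carrier) ≃ₗ[K] X.carrier)

end LComod

end Pool.Agent.Lib.FcWild
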