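import Mathlib

/-!
Definitions for the comparison of wild and fc-wild coalgebras: finite-dimensional right modules
over an algebra, left comodules over a coalgebra, socles, injective comodules, finitely
copresented comodules, representation embeddings, and the wildness notions.

Vector spaces are objects `M` of `ModuleCat K`, algebras are objects of `AlgCat K` and coalgebras
are objects of `CoalgCat K`; only their underlying types and their structure are used.
-/

universe u

open scoped TensorProduct

namespace Pool.Agent.Lib.FcWild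

variable {K : Type u} [Field K]

/-- `f`, `g` form a short exact sequence `0 → M → N → P → 0`. -/
def ShortEx {M N P : ModuleCat.{u} K} (f : M →ₗ[K] N) (g : N →ₗ[K] P) : Prop :=
  Function.Injective f ∧ LinearMap.range f = LinearMap.ker g ∧ Function.Surjective g

/-- `h = c f + g`. -/
def IsComb {M N : ModuleCat.{u} K} (c : K) (f g h : M →ₗ[K] N) : Prop := h = c • f + g

/-! ### Right modules over an algebra -/

section RightModules

variable {W : AlgCat.{u} K} {M N : ModuleCat.{u} K}

/-- `act` makes the vector space `M` a right `W`-module; `act x a` is the product `x · a`. -/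
structure IsRightModule (act : M → W → M) : Prop where
  add_left : ∀ x y a, act (x + y) a = act x a + act y a
  add_right : ∀ x a b, act x (a + b) = act x a + act x b
  smul_left : ∀ (c : K) x a, act (c • x) a = c • act x a
  smul_right : ∀ (c : K) x a, act x (c • a) = c • act x a
  one : ∀ x, act x 1 = x
  mul : ∀ x a b, act x (a * b) = act (act x a) b

/-- `f` is a homomorphism of right `W`-modules. -/
def IsModHom (act : M → W → M) (act' : N → W → N) (f : M →ₗ[K] N) : Prop :=
  ∀ x a, f (act x a) = act' (f x) a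

/-- The subspace `A` is a submodule. -/
def IsSubmod (act : M → W → M) (A : Submodule K M) : Prop := ∀ x ∈ A, ∀ a, act x a ∈ A

/-- The module is indecomposable: nonzero and not the direct sum of two nonzero submodules. -/
def IsIndecMod (act : M → W → M) : Prop :=
  Nontrivial M ∧ ∀ A B : Submodule K M, IsSubmod act A → IsSubmod act B → IsCompl A B →
    A = ⊥ ∨ B = ⊥

/-- For a right `R`-module `M` and an algebra homomorphism `θ : W → Mₙ(R)`: the right action of
`W` on the space `Mⁿ` of row vectors, where `a` acts by multiplication with the matrix `θ a` from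
the right. This is the right `W`-module `M ⊗_R Rⁿ`. -/
def rowAct {R : AlgCat.{u} K} {n : ℕ} (θ : W →ₐ[K] Matrix (Fin n) (Fin n) R) (act : M → R → M) :
    ModuleCat.of K (Fin n → M) → W → ModuleCat.of K (Fin n → M) :=
  fun v a j => ∑ i, act (v i) (θ a i j)

/-- The space `Mⁿ` with the action `rowAct θ act` is a right `W`-module. -/
theorem IsRightModule.row {R : AlgCat.{u} K} {n : ℕ} (θ : W →ₐ[K] Matrix (Fin n) (Fin n) R)
    {act : M → R → M} (h : IsRightModule act) : IsRightModule (rowAct θ act) := by
  have h0 : ∀ x, act x 0 = 0 := by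
    intro x
    have h1 := h.smul_right 0 x 0
    rwa [zero_smul, zero_smul] at h1
  have h0' : ∀ r, act 0 r = 0 := by
    intro r
    have h1 := h.smul_left 0 0 r
    rwa [zero_smul, zero_smul] at h1
  refine ⟨?_, ?_, ?_, ?_, ?_, ?_⟩
  · intro v w a
    refine funext fun j => ?_
    show ∑ i, act (v i + w i) (θ a i j) = ∑ i, act (v i) (θ a i j) + ∑ i, act (w i) (θ a i j)
    rw [← Finset.sum_add_distrib]
    exact Finset.sum_congr rfl fun i _ => h.add_left _ _ _
  · intro v a b
    refine funext fun j => ?_
    show ∑ i, act (v i) (θ (a + b) i j) = ∑ i, act (v i) (θ a i j) +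
      ∑ i, act (v i) (θ b i j)
    rw [← Finset.sum_add_distrib]
    refine Finset.sum_congr rfl fun i _ => ?_
    rw [map_add, Matrix.add_apply, h.add_right]
  · intro c v a
    refine funext fun j => ?_
    show ∑ i, act (c • v i) (θ a i j) = c • ∑ i, act (v i) (θ a i j)
    rw [Finset.smul_sum]
    exact Finset.sum_congr rfl fun i _ => h.smul_left _ _ _
  · intro c v a
    refine funext fun j => ?_
    show ∑ i, act (v i) (θ (c • a) i j) = c • ∑ i, act (v i) (θ a i j)
    rw [Finset.smul_sum]
    refine Finset.sum_congr rfl fun i _ => ?_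
    rw [map_smul, Matrix.smul_apply, h.smul_right]
  · intro v
    refine funext fun j => ?_
    show ∑ i, act (v i) (θ 1 i j) = v j
    rw [map_one, Finset.sum_eq_single j]
    · rw [Matrix.one_apply_eq, h.one]
    · intro i _ hi
      rw [Matrix.one_apply_ne hi, h0]
    · intro h
      exact absurd (Finset.mem_univ j) h
  · intro v a b
    refine funext fun j => ?_
    show ∑ i, act (v i) (θ (a * b) i j) = ∑ k, act (∑ i, act (v i) (θ a i k)) (θ b k j)
    have hL : ∀ (r : R) (s : Fin n → M), act (∑ i, s i) r = ∑ i, act (s i) r := by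
      intro r s
      let f : M →+ M :=
        { toFun := fun x => act x r
          map_zero' := h0' r
          map_add' := fun x y => h.add_left x y r }
      exact map_sum f s Finset.univ
    have hR : ∀ (x : M) (s : Fin n → R), act x (∑ i, s i) = ∑ i, act x (s i) := by
      intro x s
      let f : R →+ M :=
        { toFun := fun r => act x r
          map_zero' := h0 x
          map_add' := fun r s => h.add_right x r s }
      exact map_sum f s Finset.univ
    simp only [hL]
    rw [Finset.sum_comm]
    refine Finset.sum_congr rfl fun i _ => ?_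
    rw [map_mul, Matrix.mul_apply, hR]
    exact Finset.sum_congr rfl fun k _ => h.mul _ _ _

end RightModules

/-- A finite-dimensional right `W`-module. -/
structure RMod (W : AlgCat.{u} K) where
  V : ModuleCat.{u} K
  act : V → W → V
  isMod : IsRightModule act
  fin : Module.Finite K V

/-- A homomorphism of right `W`-modules. -/
structure RHom {W : AlgCat.{u} K} (X Y : RMod W) where
  lin : X.V →ₗ[K] Y.V
  isHom : IsModHom X.act Y.act lin

/-- The identity homomorphism. -/
def RHom.id {W : AlgCat.{u} K} (X : RMod W) : RHom X X := ⟨LinearMap.id, fun _ _ => rfl⟩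

/-- Composition of homomorphisms. -/
def RHom.comp {W : AlgCat.{u} K} {X Y Z : RMod W} (g : RHom Y Z) (f : RHom X Y) : RHom X Z :=
  ⟨g.lin ∘ₗ f.lin, fun x a => (congrArg g.lin (f.isHom x a)).trans (g.isHom (f.lin x) a)⟩

/-- Two right modules are isomorphic. -/
def RMod.Iso {W : AlgCat.{u} K} (X Y : RMod W) : Prop :=
  ∃ (f : RHom X Y) (g : RHom Y X), g.comp f = RHom.id X ∧ f.comp g = RHom.id Y

/-! ### Left comodules over a coalgebra -/

section Comodules

variable {C : CoalgCat.{u} K} {M N : ModuleCat.{u} K}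

/-- `ρ` is a coaction making the vector space `M` a left `C`-comodule. -/
structure IsCoaction (ρ : M →ₗ[K] C ⊗[K] M) : Prop where
  coassoc : (TensorProduct.assoc K C C M).toLinearMap ∘ₗ
    (Coalgebra.comul (R := K) (A := C)).rTensor M ∘ₗ ρ = ρ.lTensor C ∘ₗ ρ
  counit : (Coalgebra.counit (R := K) (A := C)).rTensor M ∘ₗ ρ = TensorProduct.mk K K M 1

/-- `f` is a homomorphism of left comodules. -/
def IsCoHom (ρ : M →ₗ[K] C ⊗[K] M) (σ : N →ₗ[K] C ⊗[K] N) (f : M →ₗ[K] N) : Prop :=
  σ ∘ₗ f = f.lTensor C ∘ₗ ρ

/-- The subspace `A` is a subcomodule: `ρ` maps `A` into `C ⊗ A`. -/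
def IsSubcomod (ρ : M →ₗ[K] C ⊗[K] M) (A : Submodule K M) : Prop :=
  ∀ x ∈ A, ρ x ∈ LinearMap.range (A.subtype.lTensor C)

/-- The comodule is indecomposable: nonzero and not the direct sum of two nonzero
subcomodules. -/
def IsIndecComod (ρ : M →ₗ[K] C ⊗[K] M) : Prop :=
  Nontrivial M ∧ ∀ A B : Submodule K M, IsSubcomod ρ A → IsSubcomod ρ B → IsCompl A B →
    A = ⊥ ∨ B = ⊥

/-- The subspace `A` is a simple subcomodule. -/
def IsSimpleSubcomod (ρ : M →ₗ[K] C ⊗[K] M) (A : Submodule K M) : Prop :=
  IsSubcomod ρ A ∧ A ≠ ⊥ ∧ ∀ B ≤ A, IsSubcomod ρ B → B = ⊥ ∨ B = A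

/-- The socle: the sum of the simple subcomodules. -/
def coSocle (ρ : M →ₗ[K] C ⊗[K] M) : Submodule K M := sSup {A | IsSimpleSubcomod ρ A}

/-- The comodule `M` is injective: homomorphisms to `M` extend along injective
homomorphisms. -/
def IsInjComod (ρ : M →ₗ[K] C ⊗[K] M) : Prop :=
  ∀ (P Q : ModuleCat.{u} K) (σ : P →ₗ[K] C ⊗[K] P) (τ : Q →ₗ[K] C ⊗[K] Q), IsCoaction σ →
    IsCoaction τ → ∀ i : P →ₗ[K] Q, IsCoHom σ τ i → Function.Injective i →
      ∀ f : P →ₗ[K] M, IsCoHom σ ρ f → ∃ g : Q →ₗ[K] M, IsCoHom τ ρ g ∧ g ∘ₗ i = f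

/-- The comodule `M` is finitely copresented: there is an exact sequence `0 → M → E → F` of
comodules with `E` and `F` injective with finite-dimensional socle. -/
def IsFinCopresented (ρ : M →ₗ[K] C ⊗[K] M) : Prop :=
  ∃ (E F : ModuleCat.{u} K) (σ : E →ₗ[K] C ⊗[K] E) (τ : F →ₗ[K] C ⊗[K] F) (q : M →ₗ[K] E)
    (d : E →ₗ[K] F), IsCoaction σ ∧ IsCoaction τ ∧ IsInjComod σ ∧ IsInjComod τ ∧
      Module.Finite K (coSocle σ) ∧ Module.Finite K (coSocle τ) ∧ IsCoHom ρ σ q ∧
        IsCoHom σ τ d ∧ Function.Injective q ∧ LinearMap.range q = LinearMap.ker d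

/-- The space of homomorphisms of left comodules. -/
def coHoms (ρ : M →ₗ[K] C ⊗[K] M) (σ : N →ₗ[K] C ⊗[K] N) : Submodule K (M →ₗ[K] N) where
  carrier := {f | IsCoHom ρ σ f}
  add_mem' := by
    intro f g hf hg
    have hf' : σ ∘ₗ f = f.lTensor C ∘ₗ ρ := hf
    have hg' : σ ∘ₗ g = g.lTensor C ∘ₗ ρ := hg
    show σ ∘ₗ (f + g) = (f + g).lTensor C ∘ₗ ρ
    rw [LinearMap.comp_add, hf', hg', LinearMap.lTensor_add, LinearMap.add_comp]
  zero_mem' := by
    show σ ∘ₗ (0 : M →ₗ[K] N) = (0 : M →ₗ[K] N).lTensor C ∘ₗ ρ
    rw [LinearMap.comp_zero, LinearMap.lTensor_zero, LinearMap.zero_comp]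
  smul_mem' := by
    intro c f hf
    have hf' : σ ∘ₗ f = f.lTensor C ∘ₗ ρ := hf
    show σ ∘ₗ (c • f) = (c • f).lTensor C ∘ₗ ρ
    rw [LinearMap.comp_smul, hf', LinearMap.lTensor_smul, LinearMap.smul_comp]

/-- The comodule `M` is quasifinite: the space of homomorphisms from every simple comodule to
`M` is finite-dimensional. -/
def IsQuasifin (ρ : M →ₗ[K] C ⊗[K] M) : Prop :=
  ∀ (S : ModuleCat.{u} K) (σ : S →ₗ[K] C ⊗[K] S), IsCoaction σ → IsSimpleSubcomod σ ⊤ →
    Module.Finite K (coHoms σ ρ)

end Comodules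

/-- A left `C`-comodule. -/
structure Comod (C : CoalgCat.{u} K) where
  V : ModuleCat.{u} K
  coact : V →ₗ[K] C ⊗[K] V
  isCoaction : IsCoaction coact

/-- A homomorphism of left `C`-comodules. -/
structure CHom {C : CoalgCat.{u} K} (X Y : Comod C) where
  lin : X.V →ₗ[K] Y.V
  isHom : IsCoHom X.coact Y.coact lin

/-- The identity homomorphism. -/
def CHom.id {C : CoalgCat.{u} K} (X : Comod C) : CHom X X :=
  ⟨LinearMap.id, by rw [IsCoHom, LinearMap.lTensor_id, LinearMap.id_comp, LinearMap.comp_id]⟩

/-- Composition of homomorphisms. -/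
def CHom.comp {C : CoalgCat.{u} K} {X Y Z : Comod C} (g : CHom Y Z) (f : CHom X Y) : CHom X Z :=
  ⟨g.lin ∘ₗ f.lin, by
    rw [IsCoHom, ← LinearMap.comp_assoc, g.isHom, LinearMap.comp_assoc, f.isHom,
      LinearMap.lTensor_comp, LinearMap.comp_assoc]⟩

/-- Two left comodules are isomorphic. -/
def Comod.Iso {C : CoalgCat.{u} K} (X Y : Comod C) : Prop :=
  ∃ (f : CHom X Y) (g : CHom Y X), g.comp f = CHom.id X ∧ f.comp g = CHom.id Y

/-! ### Wildness -/

/-- A representation embedding of the category of finite-dimensional right `W`-modules into the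
category of left `C`-comodules: a `K`-linear functor which carries short exact sequences to short
exact sequences and indecomposable modules to indecomposable comodules, and which reflects
isomorphism. -/
structure RepEmb (W : AlgCat.{u} K) (C : CoalgCat.{u} K) where
  obj : RMod W → Comod C
  map : ∀ {X Y : RMod W}, RHom X Y → CHom (obj X) (obj Y)
  map_id : ∀ X : RMod W, map (RHom.id X) = CHom.id (obj X)
  map_comp : ∀ {X Y Z : RMod W} (f : RHom X Y) (g : RHom Y Z),
    map (g.comp f) = (map g).comp (map f)
  linear : ∀ {X Y : RMod W} (c : K) (f g h : RHom X Y), IsComb c f.lin g.lin h.lin →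
    IsComb c (map f).lin (map g).lin (map h).lin
  exact : ∀ {X Y Z : RMod W} (f : RHom X Y) (g : RHom Y Z), ShortEx f.lin g.lin →
    ShortEx (map f).lin (map g).lin
  indec : ∀ X : RMod W, IsIndecMod X.act → IsIndecComod (obj X).coact
  reflect : ∀ X Y : RMod W, (obj X).Iso (obj Y) → X.Iso Y

/-- For a right `R`-module `V` and an algebra homomorphism `θ : W → Mₙ(R)`, the right `W`-module
`Vⁿ = V ⊗_R Rⁿ`. -/
def RMod.row {R W : AlgCat.{u} K} {n : ℕ} (θ : W →ₐ[K] Matrix (Fin n) (Fin n) R) (X : RMod R) :
    RMod W where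
  V := ModuleCat.of K (Fin n → X.V)
  act := rowAct θ X.act
  isMod := X.isMod.row θ
  fin := by
    have := X.fin
    exact (inferInstance : Module.Finite K (Fin n → X.V))

/-- A finite-dimensional `K`-algebra `W` is wild in the sense of Drozd: there is a
`K⟨x,y⟩`-`W`-bimodule, free of finite rank `n` as a left module (that is, a `K`-algebra
homomorphism `θ : W → Mₙ(K⟨x,y⟩)`), such that tensoring with it, as a functor from
finite-dimensional right `K⟨x,y⟩`-modules to finite-dimensional right `W`-modules, preserves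
indecomposability and reflects isomorphism. -/
def IsDrozdWildAlg (W : AlgCat.{u} K) : Prop :=
  Module.Finite K W ∧
    ∃ (n : ℕ) (θ : W →ₐ[K] Matrix (Fin n) (Fin n) (AlgCat.of K (FreeAlgebra K (Fin 2)))),
      (∀ V : RMod (AlgCat.of K (FreeAlgebra K (Fin 2))), IsIndecMod V.act →
        IsIndecMod (V.row θ).act) ∧
        ∀ V V' : RMod (AlgCat.of K (FreeAlgebra K (Fin 2))), (V.row θ).Iso (V'.row θ) → V.Iso V'

section Wild

variable (C : CoalgCat.{u} K)

/-- The coalgebra `C` is wild: there are a finite-dimensional wild algebra `W` and a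
representation embedding of the finite-dimensional right `W`-modules into the finite-dimensional
left `C`-comodules. -/
def IsWildCoalg : Prop :=
  ∃ W : AlgCat.{u} K, IsDrozdWildAlg W ∧ ∃ F : RepEmb W C, ∀ X, Module.Finite K (F.obj X).V

/-- The coalgebra `C` is fc-wild: there are a finite-dimensional wild algebra `W` and a
representation embedding of the finite-dimensional right `W`-modules into the finitely
copresented left `C`-comodules. -/
def IsFcWildCoalg : Prop :=
  ∃ W : AlgCat.{u} K, IsDrozdWildAlg W ∧ ∃ F : RepEmb W C, ∀ X, IsFinCopresented (F.obj X).coact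

/-- The coaction of the left comodule `C`. -/
def selfCoact : C.toModuleCat →ₗ[K] C ⊗[K] C.toModuleCat := Coalgebra.comul

/-- The coalgebra `C` is f-quasifinite: every quotient comodule of the left comodule `C` by a
finite-dimensional subcomodule (that is, every comodule `Y` with a surjective homomorphism
`C → Y` whose kernel is finite-dimensional) is quasifinite. -/
def IsFQuasifin : Prop :=
  ∀ (Y : ModuleCat.{u} K) (σ : Y →ₗ[K] C ⊗[K] Y) (q : C.toModuleCat →ₗ[K] Y), IsCoaction σ →
    IsCoHom (selfCoact C) σ q → Function.Surjective q → Module.Finite K (LinearMap.ker q) →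
      IsQuasifin σ

/-- The coalgebra `C` is strongly quasifinite: every quotient comodule of the left comodule `C`
is quasifinite. -/
def IsStronglyQuasifin : Prop :=
  ∀ (Y : ModuleCat.{u} K) (σ : Y →ₗ[K] C ⊗[K] Y) (q : C.toModuleCat →ₗ[K] Y), IsCoaction σ →
    IsCoHom (selfCoact C) σ q → Function.Surjective q → IsQuasifin σ

end Wild

end Pool.Agent.Lib.FcWild
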