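import Pool.Agent.Lib.FcWild.Coalg
import Pool.Agent.Lib.FcWild.Rich

/-!
The concrete coalgebra is rich.
-/

universe u

open scoped TensorProduct

namespace Pool.Agent.Lib.FcWild

open LComod Vtx

variable {K : Type u} [Field K]

theorem ract_zero' (k : Wld K →ₗ[K] K) (v : Vtx K) :
    ract k (bas v 0) = k (bas v 0) • bas v 0 := by
  rw [ract_apply, comul_eq, wcomul_zero, slice_tmul]

theorem ract_good (k : Wld K →ₗ[K] K) {v : Vtx K} (hv : Good v) {l : ℕ} (hl : l < v.dim) :
    ract k (bas v (l + 1)) = k (bas v 0) • bas v (l + 1) +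
      ∑ i : Fin v.dim, k (bas v (i + 1)) • v.mat i ⟨l, hl⟩ := by
  rw [ract_apply, comul_eq, wcomul_good hv hl, map_add, map_sum]
  simp only [slice_tmul]

theorem ract_bad (k : Wld K →ₗ[K] K) {v : Vtx K} {l : ℕ} (h : ¬ (Good v ∧ l < v.dim)) :
    ract k (bas v (l + 1)) = k (bas v (l + 1)) • bas v (l + 1) := by
  rw [ract_apply, comul_eq, wcomul_bad h, slice_tmul]

/-- The filtration by rank. -/
def rankSub (K : Type u) [Field K] (j : ℕ) : Submodule K (Wld K) :=
  (Finsupp.supported K K {p : Vtx K × ℕ | p.1.rank ≤ j} : Submodule K ((Vtx K × ℕ) →₀ K))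

theorem bas_mem_rankSub {j : ℕ} {v : Vtx K} (hv : v.rank ≤ j) (l : ℕ) :
    bas v l ∈ rankSub K j := by
  have : (Finsupp.single (v, l) 1 : (Vtx K × ℕ) →₀ K) ∈
      (Finsupp.supported K K {p : Vtx K × ℕ | p.1.rank ≤ j}) :=
    Finsupp.single_mem_supported K 1 hv
  exact this

theorem rankSub_eq_span (j : ℕ) :
    rankSub K j = Submodule.span K {x | ∃ v l, Vtx.rank v ≤ j ∧ x = bas v l} := by
  apply le_antisymm
  · intro x hx
    have h1 : (x : (Vtx K × ℕ) →₀ K) ∈
      (Finsupp.supported K K {p : Vtx K × ℕ | p.1.rank ≤ j}) := hx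
    rw [Finsupp.supported_eq_span_single] at h1
    have h2 : ∀ y ∈ Submodule.span K ((fun i : Vtx K × ℕ => (Finsupp.single i (1 : K))) ''
        {p : Vtx K × ℕ | p.1.rank ≤ j}), (y : Wld K) ∈
        Submodule.span K {x | ∃ v l, Vtx.rank v ≤ j ∧ x = bas v l} := by
      intro y hy
      induction hy using Submodule.span_induction with
      | mem y hy =>
        obtain ⟨p, hp, rfl⟩ := hy
        exact Submodule.subset_span ⟨p.1, p.2, hp, rfl⟩
      | zero => exact Submodule.zero_mem _
      | add a b _ _ ha hb => exact Submodule.add_mem _ ha hb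
      | smul a x _ hx => exact Submodule.smul_mem _ a hx
    exact h2 x h1
  · rw [Submodule.span_le]
    rintro _ ⟨v, l, hv, rfl⟩
    exact bas_mem_rankSub hv l

theorem rankSub_le {j : ℕ} {A : Submodule K (Wld K)}
    (h : ∀ (v : Vtx K) (l : ℕ), v.rank ≤ j → bas v l ∈ A) : rankSub K j ≤ A := by
  rw [rankSub_eq_span, Submodule.span_le]
  rintro _ ⟨v, l, hv, rfl⟩
  exact h v l hv

theorem top_le {A : Submodule K (Wld K)} (h : ∀ (v : Vtx K) (l : ℕ), bas v l ∈ A) (x : Wld K) :
    x ∈ A := by
  have h1 : ∀ y : (Vtx K × ℕ) →₀ K, (y : Wld K) ∈ A := by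
    intro y
    induction y using Finsupp.induction_linear with
    | zero => exact A.zero_mem
    | add a b ha hb => exact A.add_mem ha hb
    | single p a =>
      have h2 : (Finsupp.single p a : (Vtx K × ℕ) →₀ K) = a • Finsupp.single p 1 := by
        rw [Finsupp.smul_single, smul_eq_mul, mul_one]
      have h3 : (a • (Finsupp.single p 1 : (Vtx K × ℕ) →₀ K) : Wld K) ∈ A :=
        A.smul_mem a (h p.1 p.2)
      rw [h2]
      exact h3
  exact h1 x

theorem rankSub_mono : Monotone (rankSub K) := by
  intro i j hij
  apply rankSub_le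
  intro v l hv
  exact bas_mem_rankSub (hv.trans hij) l

theorem exists_mem_rankSub (x : Wld K) : ∃ j, x ∈ rankSub K j := by
  have h1 : ∀ y : (Vtx K × ℕ) →₀ K, ∃ j, (y : Wld K) ∈ rankSub K j := by
    intro y
    induction y using Finsupp.induction_linear with
    | zero => exact ⟨0, Submodule.zero_mem _⟩
    | add a b ha hb =>
      obtain ⟨i, hi⟩ := ha
      obtain ⟨j, hj⟩ := hb
      exact ⟨max i j, Submodule.add_mem _ (rankSub_mono (le_max_left i j) hi)
        (rankSub_mono (le_max_right i j) hj)⟩
    | single p a =>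
      refine ⟨p.1.rank, ?_⟩
      have : (Finsupp.single p a : (Vtx K × ℕ) →₀ K) ∈
        (Finsupp.supported K K {q : Vtx K × ℕ | q.1.rank ≤ p.1.rank}) :=
        Finsupp.single_mem_supported K a (show p.1.rank ≤ p.1.rank from le_rfl)
      exact this
  exact h1 x

theorem mat_mem_rankSub {v : Vtx K} (hv : Good v) {j : ℕ} (hj : v.rank ≤ j) (i l : Fin v.dim) :
    v.mat i l ∈ rankSub K j := by
  cases v with
  | node r d s child lidx coef =>
    rw [good_node_iff] at hv
    apply Submodule.sum_mem
    intro k _
    apply Submodule.smul_mem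
    exact bas_mem_rankSub ((hv.1 k).le.trans hj) _

open Classical in
/-- The idempotent functional cutting out the part of rank at most `j`. -/
noncomputable def rankE (K : Type u) [Field K] (j : ℕ) : Wld K →ₗ[K] K :=
  lc fun v l => if v.rank ≤ j then wcounit (bas v l) else 0

theorem rankE_of_le {j : ℕ} {v : Vtx K} (hv : v.rank ≤ j) (l : ℕ) :
    rankE K j (bas v l) = wcounit (bas v l) := by
  rw [rankE, lc_bas, if_pos hv]

theorem rankE_of_not_le {j : ℕ} {v : Vtx K} (hv : ¬ v.rank ≤ j) (l : ℕ) :
    rankE K j (bas v l) = 0 := by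
  rw [rankE, lc_bas, if_neg hv]

theorem ract_rankE_of_le {j : ℕ} {v : Vtx K} (hv : v.rank ≤ j) (l : ℕ) :
    ract (rankE K j) (bas v l) = bas v l := by
  cases l with
  | zero => rw [ract_zero', rankE_of_le hv, wcounit_zero, one_smul]
  | succ l =>
    by_cases h : Good v ∧ l < v.dim
    · rw [ract_good _ h.1 h.2, rankE_of_le hv, wcounit_zero, one_smul, Finset.sum_eq_zero,
        add_zero]
      intro i _
      rw [rankE_of_le hv, wcounit_good h.1 i.2, zero_smul]
    · rw [ract_bad _ h, rankE_of_le hv, wcounit_bad h, one_smul]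

theorem ract_rankE_of_not_le {j : ℕ} {v : Vtx K} (hv : ¬ v.rank ≤ j) (l : ℕ) :
    ract (rankE K j) (bas v l) = 0 := by
  cases l with
  | zero => rw [ract_zero', rankE_of_not_le hv, zero_smul]
  | succ l =>
    by_cases h : Good v ∧ l < v.dim
    · rw [ract_good _ h.1 h.2, rankE_of_not_le hv, zero_smul, zero_add]
      apply Finset.sum_eq_zero
      intro i _
      rw [rankE_of_not_le hv, zero_smul]
    · rw [ract_bad _ h, rankE_of_not_le hv, zero_smul]

/-- The coordinate functional of a basis element. -/
noncomputable def coo (v : Vtx K) (l : ℕ) : Wld K →ₗ[K] K :=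
  (Finsupp.lapply (v, l) : ((Vtx K × ℕ) →₀ K) →ₗ[K] K)

open Classical in
theorem coo_bas (v w : Vtx K) (l m : ℕ) :
    coo v l (bas w m) = if w = v ∧ m = l then 1 else 0 := by
  have : (Finsupp.lapply (v, l) : ((Vtx K × ℕ) →₀ K) →ₗ[K] K) (Finsupp.single (w, m) 1) =
      if w = v ∧ m = l then 1 else 0 := by
    rw [Finsupp.lapply_apply, Finsupp.single_apply]
    simp only [Prod.mk.injEq]
  exact this

open Classical in
theorem sum_coo (T : Finset (Vtx K × ℕ)) (x : Wld K)
    (hT : ((x : (Vtx K × ℕ) →₀ K)).support ⊆ T) :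
    ∑ p ∈ T, coo p.1 p.2 x • bas p.1 p.2 = x := by
  have h1 : ∀ y : (Vtx K × ℕ) →₀ K, y.support ⊆ T →
      ∑ p ∈ T, (y p) • (Finsupp.single p (1 : K)) = y := by
    intro y hy
    have h2 := Finsupp.sum_single y
    rw [Finsupp.sum_of_support_subset y hy _ (by simp)] at h2
    conv_rhs => rw [← h2]
    apply Finset.sum_congr rfl
    intro p _
    rw [Finsupp.smul_single, smul_eq_mul, mul_one]
  exact h1 x hT

/-- The vertex realising a multiplicative matrix. -/
theorem exists_vertex (j d : ℕ) (c : Fin d → Fin d → Wld K) (hB : ∀ i k, c i k ∈ rankSub K j)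
    (hcom : ∀ i k, wcomul (c i k) = ∑ l, c i l ⊗ₜ[K] c l k)
    (hcou : ∀ i k, wcounit (c i k) = if i = k then 1 else 0) :
    ∃ (v : Vtx K) (hd : v.dim = d), Good v ∧ v.rank = j + 1 ∧
      ∀ i k, v.mat i k = c (Fin.cast hd i) (Fin.cast hd k) := by
  classical
  let T : Finset (Vtx K × ℕ) := Finset.univ.biUnion fun p : Fin d × Fin d =>
    ((c p.1 p.2 : (Vtx K × ℕ) →₀ K)).support
  have hT : ∀ i k, ((c i k : (Vtx K × ℕ) →₀ K)).support ⊆ T := by
    intro i k
    exact Finset.subset_biUnion_of_mem
      (fun p : Fin d × Fin d => ((c p.1 p.2 : (Vtx K × ℕ) →₀ K)).support) (Finset.mem_univ (i, k))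
  have hTr : ∀ p ∈ T, p.1.rank ≤ j := by
    intro p hp
    obtain ⟨q, _, hq⟩ := Finset.mem_biUnion.1 hp
    have h1 : (c q.1 q.2 : (Vtx K × ℕ) →₀ K) ∈
      (Finsupp.supported K K {p : Vtx K × ℕ | p.1.rank ≤ j}) := hB q.1 q.2
    exact ((Finsupp.mem_supported K (c q.1 q.2 : (Vtx K × ℕ) →₀ K)).1 h1) hq
  let τ : Fin T.card ≃ T := T.equivFin.symm
  have hmat : ∀ i k, ∑ t, coo (τ t).1.1 (τ t).1.2 (c i k) • bas (τ t).1.1 (τ t).1.2 = c i k := by
    intro i k
    have h1 : ∑ t, coo (τ t).1.1 (τ t).1.2 (c i k) • bas (τ t).1.1 (τ t).1.2 =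
        ∑ p : T, coo p.1.1 p.1.2 (c i k) • bas p.1.1 p.1.2 :=
      Equiv.sum_comp τ (fun p : T => coo p.1.1 p.1.2 (c i k) • bas p.1.1 p.1.2)
    rw [h1, Finset.sum_coe_sort T (fun p : Vtx K × ℕ => coo p.1 p.2 (c i k) • bas p.1 p.2)]
    exact sum_coo T (c i k) (hT i k)
  refine ⟨node (j + 1) d T.card (fun t => (τ t).1.1) (fun t => (τ t).1.2)
    (fun i k t => coo (τ t).1.1 (τ t).1.2 (c i k)), rfl, ?_, rfl, ?_⟩
  · rw [good_node_iff]
    simp only [hmat]
    exact ⟨fun t => Nat.lt_succ_of_le (hTr _ (τ t).2), hcom, hcou⟩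
  · intro i k
    exact hmat i k

/-- The concrete coalgebra is rich. -/
noncomputable def wldRich (K : Type u) [Field K] : Rich K (Wld K) where
  B := rankSub K
  e := rankE K
  mono := rankSub_mono
  exh := exists_mem_rankSub
  e_eq := by
    intro j c hc
    have h : rankSub K j ≤ LinearMap.eqLocus (rankE K j) wcounit :=
      rankSub_le fun v l hv => rankE_of_le hv l
    exact h hc
  ract_e_mem := by
    intro j c
    have h : c ∈ (rankSub K j).comap (ract (rankE K j)) := by
      apply top_le
      intro v l
      rw [Submodule.mem_comap]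
      by_cases hv : v.rank ≤ j
      · rw [ract_rankE_of_le hv]
        exact bas_mem_rankSub hv l
      · rw [ract_rankE_of_not_le hv]
        exact Submodule.zero_mem _
    exact h
  ract_mem := by
    intro j k c hc
    have h : rankSub K j ≤ (rankSub K j).comap (ract k) := by
      apply rankSub_le
      intro v l hv
      rw [Submodule.mem_comap]
      cases l with
      | zero =>
        rw [ract_zero']
        exact Submodule.smul_mem _ _ (bas_mem_rankSub hv 0)
      | succ l =>
        by_cases h : Good v ∧ l < v.dim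
        · rw [ract_good k h.1 h.2]
          apply Submodule.add_mem
          · exact Submodule.smul_mem _ _ (bas_mem_rankSub hv _)
          · apply Submodule.sum_mem
            intro i _
            exact Submodule.smul_mem _ _ (mat_mem_rankSub h.1 hv _ _)
        · rw [ract_bad k h]
          exact Submodule.smul_mem _ _ (bas_mem_rankSub hv _)
    exact h hc
  ract_e := by
    intro j c hc
    have h : rankSub K j ≤ LinearMap.eqLocus (ract (rankE K j)) LinearMap.id :=
      rankSub_le fun v l hv => ract_rankE_of_le hv l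
    exact h hc
  vertex := by
    intro j d c hB hcom hcou
    obtain ⟨v, hd, hv, hr, hm⟩ := exists_vertex j d c hB hcom hcou
    subst hd
    have hm' : ∀ i k, v.mat i k = c i k := hm
    have hnr : ¬ v.rank ≤ j := by omega
    refine ⟨bas v 0, fun i => bas v (i + 1), fun i => coo v (i + 1), ?_, ?_, ?_, ?_, ?_, ?_, ?_⟩
    · intro i
      rw [comul_eq, wcomul_good hv i.2]
      simp only [hm']
    · intro i l
      rw [coo_bas]
      simp only [true_and, Nat.add_right_cancel_iff, Fin.val_inj]
      by_cases h : i = l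
      · rw [if_pos h, if_pos h.symm]
      · rw [if_neg h, if_neg (Ne.symm h)]
    · intro i x
      have h : ract (coo v (i + 1)) = ∑ l : Fin v.dim, (coo v (l + 1)).smulRight (c i l) := by
        apply ext_bas
        intro w m
        simp only [LinearMap.sum_apply, LinearMap.smulRight_apply]
        cases m with
        | zero =>
          rw [ract_zero', coo_bas, if_neg (by simp), zero_smul]
          symm
          apply Finset.sum_eq_zero
          intro l _
          rw [coo_bas, if_neg (by simp), zero_smul]
        | succ m =>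
          by_cases h : Good w ∧ m < w.dim
          · rw [ract_good _ h.1 h.2, coo_bas, if_neg (by simp), zero_smul, zero_add]
            by_cases hw : w = v
            · subst hw
              rw [Finset.sum_eq_single i, Finset.sum_eq_single ⟨m, h.2⟩]
              · rw [coo_bas, coo_bas, if_pos ⟨rfl, rfl⟩, if_pos ⟨rfl, rfl⟩, hm']
              · intro l _ hl
                rw [coo_bas, if_neg, zero_smul]
                rintro ⟨_, h2⟩
                apply hl
                apply Fin.ext
                simp only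
                omega
              · intro hh
                exact absurd (Finset.mem_univ _) hh
              · intro l _ hl
                rw [coo_bas, if_neg, zero_smul]
                rintro ⟨_, h2⟩
                apply hl
                apply Fin.ext
                omega
              · intro hh
                exact absurd (Finset.mem_univ _) hh
            · rw [Finset.sum_eq_zero, Finset.sum_eq_zero]
              · intro l _
                rw [coo_bas, if_neg (fun h => hw h.1), zero_smul]
              · intro l _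
                rw [coo_bas, if_neg (fun h => hw h.1), zero_smul]
          · rw [ract_bad _ h, coo_bas, if_neg, zero_smul]
            · symm
              apply Finset.sum_eq_zero
              intro l _
              rw [coo_bas, if_neg, zero_smul]
              rintro ⟨rfl, h2⟩
              exact h ⟨hv, by have := l.2; omega⟩
            · rintro ⟨rfl, h2⟩
              exact h ⟨hv, by have := i.2; omega⟩
      rw [h]
      simp only [LinearMap.sum_apply, LinearMap.smulRight_apply]
    · intro i
      exact rankE_of_not_le hnr _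
    · exact rankE_of_not_le hnr _
    · exact wcomul_zero v
    · exact wcounit_zero v

end Pool.Agent.Lib.FcWild
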